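import Mathlib

/-!
# MP_0225c1_lc, deterministic strategies: combinatorial lemmas

Disjoint families of tails of label sequences, thin sets of tails, independent sets.
-/

namespace Pool.Agent.Det0225

section

variable {ι X : Type*} [DecidableEq ι] [DecidableEq X]

/-- A set `F` meets at most `|F|` members of a disjoint family. -/
theorem card_meet (S : Finset ι) (T : ι → Finset X)
    (hT : ∀ s ∈ S, ∀ s' ∈ S, s ≠ s' → Disjoint (T s) (T s')) (F : Finset X)
    (hF : ∀ s ∈ S, ¬ Disjoint (T s) F) : S.card ≤ F.card := by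
  have hx : ∀ s ∈ S, ∃ x, x ∈ T s ∧ x ∈ F := by
    intro s hs
    obtain ⟨x, h1, h2⟩ := Finset.not_disjoint_iff.1 (hF s hs)
    exact ⟨x, h1, h2⟩
  rcases isEmpty_or_nonempty X with hX | hX
  · have : S = ∅ := by
      refine Finset.eq_empty_of_forall_notMem fun s hs => ?_
      obtain ⟨x, -⟩ := hx s hs
      exact hX.false x
    rw [this]; simp
  choose! g hg using hx
  refine Finset.card_le_card_of_injOn g (fun s hs => (hg s hs).2) ?_
  intro s hs s' hs' h
  by_contra hne
  have h1 := hT s hs s' hs' hne
  exact Finset.disjoint_left.1 h1 (hg s hs).1 (h ▸ (hg s' hs').1)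

theorem exists_avoid (S : Finset ι) (T : ι → Finset X)
    (hT : ∀ s ∈ S, ∀ s' ∈ S, s ≠ s' → Disjoint (T s) (T s')) (F : Finset X)
    (hF : F.card < S.card) : ∃ s ∈ S, Disjoint (T s) F := by
  by_contra hcon
  push Not at hcon
  have h1 := card_meet S T hT F hcon
  omega

/-- Choice of disjoint representatives in several disjoint families. -/
theorem exists_select (S : Finset ι) (R' d : ℕ) (T : ι → Fin R' → Finset X)
    (hT : ∀ s ∈ S, ∀ r r', r ≠ r' → Disjoint (T s r) (T s r'))
    (hd : ∀ s ∈ S, ∀ r, (T s r).card ≤ d) (W : Finset X) (hR : W.card + S.card * d < R') :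
    ∃ f : ι → Fin R', (∀ s ∈ S, Disjoint (T s (f s)) W) ∧
      ∀ s ∈ S, ∀ s' ∈ S, s ≠ s' → Disjoint (T s (f s)) (T s' (f s')) := by
  induction S using Finset.induction_on with
  | empty => exact ⟨fun _ => ⟨0, by omega⟩, by simp, by simp⟩
  | insert a S ha ih =>
    rw [Finset.card_insert_of_notMem ha] at hR
    obtain ⟨f, hf1, hf2⟩ := ih (fun s hs => hT s (Finset.mem_insert_of_mem hs))
      (fun s hs => hd s (Finset.mem_insert_of_mem hs)) (by
        have : S.card * d ≤ (S.card + 1) * d := Nat.mul_le_mul_right _ (by omega)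
        omega)
    have hcard : (W ∪ S.biUnion fun s => T s (f s)).card < (Finset.univ : Finset (Fin R')).card := by
      rw [Finset.card_univ, Fintype.card_fin]
      calc (W ∪ S.biUnion fun s => T s (f s)).card
          ≤ W.card + (S.biUnion fun s => T s (f s)).card := Finset.card_union_le _ _
        _ ≤ W.card + S.card * d := by
            gcongr
            exact Finset.card_biUnion_le_card_mul _ _ _ fun s hs =>
              hd s (Finset.mem_insert_of_mem hs) _
        _ < R' := by nlinarith
    obtain ⟨r, -, hr⟩ := exists_avoid Finset.univ (T a)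
      (fun s _ s' _ h => hT a (Finset.mem_insert_self _ _) s s' h) _ hcard
    rw [Finset.disjoint_union_right] at hr
    have hr2 : ∀ s ∈ S, Disjoint (T a r) (T s (f s)) := fun s hs =>
      (Finset.disjoint_biUnion_right _ _ _).1 hr.2 s hs
    refine ⟨Function.update f a r, ?_, ?_⟩
    · intro s hs
      rcases Finset.mem_insert.1 hs with rfl | hs
      · simpa using hr.1
      · have : s ≠ a := fun h => ha (h ▸ hs)
        simpa [Function.update_of_ne this] using hf1 s hs
    · intro s hs s' hs' hne
      rcases Finset.mem_insert.1 hs with rfl | hs1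
      · rcases Finset.mem_insert.1 hs' with rfl | hs2
        · exact absurd rfl hne
        · have : s' ≠ s := fun h => hne h.symm
          simpa [Function.update_of_ne this] using hr2 s' hs2
      · have h1 : s ≠ a := fun h => ha (h ▸ hs1)
        rcases Finset.mem_insert.1 hs' with rfl | hs2
        · simpa [Function.update_of_ne h1] using (hr2 s hs1).symm
        · have h2 : s' ≠ a := fun h => ha (h ▸ hs2)
          simpa [Function.update_of_ne h1, Function.update_of_ne h2] using
            hf2 s hs1 s' hs2 hne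

open Classical in
/-- A digraph with outdegrees at most `L` and at least `(2 L + 1) c` vertices has an independent
set of size `c`. -/
theorem exists_indep (L : ℕ) (E : ι → ι → Prop) (c : ℕ) (S : Finset ι)
    (hdeg' : ∀ s ∈ S, ∀ U ⊆ S, (∀ s' ∈ U, E s s') → U.card ≤ L)
    (hc : (2 * L + 1) * c ≤ S.card) :
    ∃ T ⊆ S, T.card = c ∧ ∀ s ∈ T, ∀ s' ∈ T, s ≠ s' → ¬ E s s' := by
  have hdeg : ∀ s ∈ S, (S.filter fun s' => E s s').card ≤ L := fun s hs =>
    hdeg' s hs _ (Finset.filter_subset _ _) fun s' hs' => (Finset.mem_filter.1 hs').2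
  clear hdeg'
  induction c generalizing S with
  | zero => exact ⟨∅, by simp, by simp, by simp⟩
  | succ c ih =>
    -- a vertex of small indegree
    have hS : S.Nonempty := by
      rw [← Finset.card_pos]
      have : 0 < (2 * L + 1) * (c + 1) := by positivity
      omega
    have hin : ∃ s ∈ S, (S.filter fun s' => E s' s).card ≤ L := by
      by_contra hcon
      push Not at hcon
      have h1 : ∑ s ∈ S, (S.filter fun s' => E s s').card =
          ∑ s ∈ S, (S.filter fun s' => E s' s).card := by
        simp only [Finset.card_filter]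
        exact Finset.sum_comm
      have h2 : ∑ s ∈ S, (S.filter fun s' => E s s').card ≤ ∑ s ∈ S, L :=
        Finset.sum_le_sum hdeg
      have h3 : ∑ s ∈ S, L < ∑ s ∈ S, (S.filter fun s' => E s' s).card :=
        Finset.sum_lt_sum_of_nonempty hS hcon
      omega
    obtain ⟨s, hs, hsL⟩ := hin
    set S' := S.filter fun s' => s' ≠ s ∧ ¬ E s s' ∧ ¬ E s' s with hS'
    have hcard : S.card ≤ S'.card + (2 * L + 1) := by
      have hsub : S ⊆ S' ∪ ({s} ∪ ((S.filter fun s' => E s s') ∪ S.filter fun s' => E s' s)) := by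
        intro x hx
        simp only [Finset.mem_union, Finset.mem_filter, Finset.mem_singleton, hS']
        by_cases h1 : x = s
        · exact Or.inr (Or.inl h1)
        · by_cases h2 : E s x
          · exact Or.inr (Or.inr (Or.inl ⟨hx, h2⟩))
          · by_cases h3 : E x s
            · exact Or.inr (Or.inr (Or.inr ⟨hx, h3⟩))
            · exact Or.inl ⟨hx, h1, h2, h3⟩
      have h4 := Finset.card_le_card hsub
      have h5 := Finset.card_union_le S'
        ({s} ∪ ((S.filter fun s' => E s s') ∪ S.filter fun s' => E s' s))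
      have h6 := Finset.card_union_le {s}
        ((S.filter fun s' => E s s') ∪ S.filter fun s' => E s' s)
      have h7 := Finset.card_union_le (S.filter fun s' => E s s') (S.filter fun s' => E s' s)
      have h8 := hdeg s hs
      rw [Finset.card_singleton] at h6
      omega
    obtain ⟨T, hT1, hT2, hT3⟩ := ih S' (by
        have : (2 * L + 1) * (c + 1) = (2 * L + 1) * c + (2 * L + 1) := by ring
        omega) (fun x hx => le_trans (Finset.card_le_card (by
        intro y hy
        rw [Finset.mem_filter] at hy ⊢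
        exact ⟨(Finset.mem_filter.1 hy.1).1, hy.2⟩)) (hdeg x (Finset.mem_filter.1 hx).1))
    have hsT : s ∉ T := fun h => ((Finset.mem_filter.1 (hT1 h)).2).1 rfl
    refine ⟨insert s T, ?_, by rw [Finset.card_insert_of_notMem hsT, hT2], ?_⟩
    · intro x hx
      rcases Finset.mem_insert.1 hx with rfl | hx
      · exact hs
      · exact (Finset.mem_filter.1 (hT1 hx)).1
    · intro x hx y hy hne
      rcases Finset.mem_insert.1 hx with rfl | hx1
      · rcases Finset.mem_insert.1 hy with rfl | hy1
        · exact absurd rfl hne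
        · exact ((Finset.mem_filter.1 (hT1 hy1)).2).2.1
      · rcases Finset.mem_insert.1 hy with rfl | hy1
        · exact ((Finset.mem_filter.1 (hT1 hx1)).2).2.2
        · exact hT3 x hx1 y hy1 hne

end

/-! ## Tails -/

variable {M : ℕ}

/-- the labels at the levels `k, ..., d - 1` -/
def tl (d k : ℕ) (π : ℕ → Fin M) : Finset (Fin M) := (Finset.Ico k d).image π

theorem tl_card_le (d k : ℕ) (π : ℕ → Fin M) : (tl d k π).card ≤ d := by
  refine le_trans Finset.card_image_le ?_
  rw [Nat.card_Ico]; omega

theorem mem_tl {d k : ℕ} {π : ℕ → Fin M} {a : Fin M} :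
    a ∈ tl d k π ↔ ∃ j, k ≤ j ∧ j < d ∧ π j = a := by
  simp [tl, and_assoc]

theorem tl_update {d k : ℕ} (hk : k < d) (π : ℕ → Fin M) (a : Fin M) :
    tl d k (Function.update π k a) = insert a (tl d (k + 1) π) := by
  ext b
  simp only [Finset.mem_insert, mem_tl]
  constructor
  · rintro ⟨j, h1, h2, h3⟩
    by_cases h : j = k
    · subst h; left; simpa using h3.symm
    · right; exact ⟨j, by omega, h2, by rw [Function.update_of_ne h] at h3; exact h3⟩
  · rintro (rfl | ⟨j, h1, h2, h3⟩)
    · exact ⟨k, le_rfl, hk, by simp⟩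
    · exact ⟨j, by omega, h2, by rw [Function.update_of_ne (by omega)]; exact h3⟩

/-- A set of tails is thin if it has no `R` members with pairwise disjoint label sets. -/
def Thin (d k R : ℕ) (B : Set (ℕ → Fin M)) : Prop :=
  ¬ ∃ π : Fin R → (ℕ → Fin M), (∀ s, π s ∈ B) ∧
    ∀ s s', s ≠ s' → Disjoint (tl d k (π s)) (tl d k (π s'))

theorem Thin.card_lt {d k R : ℕ} {B : Set (ℕ → Fin M)} (h : Thin d k R B) {ι : Type*}
    (S : Finset ι) (π : ι → (ℕ → Fin M)) (hB : ∀ s ∈ S, π s ∈ B)
    (hd : ∀ s ∈ S, ∀ s' ∈ S, s ≠ s' → Disjoint (tl d k (π s)) (tl d k (π s'))) :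
    S.card < R := by
  by_contra hcon
  push Not at hcon
  obtain ⟨T, hT, hTc⟩ := Finset.exists_subset_card_eq hcon
  let e := T.equivFinOfCardEq hTc
  refine h ⟨fun r => π (e.symm r), fun r => hB _ (hT (e.symm r).2), fun r r' hne => ?_⟩
  refine hd _ (hT (e.symm r).2) _ (hT (e.symm r').2) fun he => hne ?_
  exact e.symm.injective (Subtype.ext he)

open Classical in
/-- **Slices.** All but fewer than `R` slices of an `R`-thin set are `(R (d + 1) + 1)`-thin. -/
theorem Thin.slices {d k R : ℕ} (hk : k < d) {B : Set (ℕ → Fin M)} (h : Thin d k R B) :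
    (Finset.univ.filter fun a : Fin M =>
      ¬ Thin d (k + 1) (R * (d + 1) + 1) {π | Function.update π k a ∈ B}).card < R := by
  set A := Finset.univ.filter fun a : Fin M =>
      ¬ Thin d (k + 1) (R * (d + 1) + 1) {π | Function.update π k a ∈ B} with hA
  by_contra hcon
  push Not at hcon
  obtain ⟨T, hT, hTc⟩ := Finset.exists_subset_card_eq hcon
  have hex : ∀ a ∈ T, ∃ π : Fin (R * (d + 1) + 1) → (ℕ → Fin M),
      (∀ s, Function.update (π s) k a ∈ B) ∧
      ∀ s s', s ≠ s' → Disjoint (tl d (k + 1) (π s)) (tl d (k + 1) (π s')) := by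
    intro a ha
    have := (Finset.mem_filter.1 (hT ha)).2
    simpa only [Thin, not_not, Set.mem_ofPred_eq] using this
  choose! φ hφ1 hφ2 using hex
  obtain ⟨f, hf1, hf2⟩ := exists_select T (R * (d + 1) + 1) d (fun a r => tl d (k + 1) (φ a r))
    (fun a ha r r' hne => hφ2 a ha r r' hne) (fun a ha r => tl_card_le _ _ _) T (by
      rw [hTc]; nlinarith)
  have := h.card_lt T (fun a => Function.update (φ a (f a)) k a) (fun a ha => hφ1 a ha _) (by
    intro a ha b hb hne
    rw [tl_update hk, tl_update hk]
    rw [Finset.disjoint_insert_left, Finset.disjoint_insert_right]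
    refine ⟨?_, ?_, hf2 a ha b hb hne⟩
    · rw [Finset.mem_insert]
      rintro (h | h)
      · exact hne h
      · exact Finset.disjoint_left.1 (hf1 b hb) h ha
    · intro h
      exact Finset.disjoint_left.1 (hf1 a ha) h hb)
  omega

end Pool.Agent.Det0225
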