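import Mathlib

/-!
# Few seeds are as good as unlimited randomness

Abstract counting (Newman / Yao) argument: if a random element `ω` of an arbitrary probability
space fails on each `x : X` with probability at most `q`, then there are `t` elements
`ω 0, ..., ω (t-1)` such that on every `x` fewer than `k` of them fail, provided that
`|X| * (t choose k) * q ^ k < 1`.  No measurability of the failure sets is needed.
-/

namespace Pool.Agent.Det0225

open MeasureTheory

/-- Union bound over the `k`-subsets of a random sample of size `t`. -/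
theorem few_seeds {X Ω : Type*} [Fintype X] [MeasurableSpace Ω] (P : Measure Ω)
    [IsProbabilityMeasure P] (A : X → Set Ω) (q : ℝ) (hA : ∀ x, P.real (A x) ≤ q)
    (t k : ℕ) (hk : (Fintype.card X : ℝ) * (t.choose k : ℝ) * q ^ k < 1) :
    ∃ ω : Fin t → Ω, ∀ x, {s | ω s ∈ A x}.ncard < k := by
  classical
  by_contra hcon
  push Not at hcon
  set μ : Measure (Fin t → Ω) := Measure.pi (fun _ : Fin t => P) with hμ
  have hprob : IsProbabilityMeasure μ := by rw [hμ]; infer_instance
  -- the bad boxes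
  set box : X → Finset (Fin t) → Set (Fin t → Ω) :=
    fun x S => Set.univ.pi (fun s => if s ∈ S then A x else Set.univ) with hbox
  have hmeas : ∀ x, ∀ S ∈ Finset.powersetCard k (Finset.univ : Finset (Fin t)),
      μ.real (box x S) ≤ q ^ k := by
    intro x S hS
    have hScard : S.card = k := (Finset.mem_powersetCard.1 hS).2
    have h1 : μ (box x S) = ∏ s : Fin t, P (if s ∈ S then A x else Set.univ) := by
      rw [hμ, hbox]
      exact Measure.pi_pi _ _
    have h2 : ∏ s : Fin t, P (if s ∈ S then A x else Set.univ) = (P (A x)) ^ k := by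
      have : ∀ s : Fin t, P (if s ∈ S then A x else Set.univ) = if s ∈ S then P (A x) else 1 := by
        intro s
        split_ifs <;> simp
      simp_rw [this]
      rw [Finset.prod_ite_mem, Finset.univ_inter, Finset.prod_const, hScard]
    rw [measureReal_def, h1, h2, ENNReal.toReal_pow]
    exact pow_le_pow_left₀ ENNReal.toReal_nonneg (hA x) k
  have hcover : (Set.univ : Set (Fin t → Ω)) ⊆
      ⋃ x ∈ (Finset.univ : Finset X), ⋃ S ∈ Finset.powersetCard k (Finset.univ : Finset (Fin t)),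
        box x S := by
    intro ω _
    obtain ⟨x, hx⟩ := hcon ω
    rw [Set.ncard_eq_toFinset_card'] at hx
    obtain ⟨S, hSsub, hScard⟩ := Finset.exists_subset_card_eq hx
    simp only [Set.mem_iUnion]
    refine ⟨x, Finset.mem_univ x, S, Finset.mem_powersetCard.2 ⟨Finset.subset_univ _, hScard⟩, ?_⟩
    rw [hbox]
    intro s _
    by_cases hs : s ∈ S
    · simp only [hs, if_true]
      have := hSsub hs
      simpa using this
    · simp [hs]
  have h1 : μ.real (Set.univ : Set (Fin t → Ω)) ≤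
      ∑ x ∈ (Finset.univ : Finset X),
        ∑ S ∈ Finset.powersetCard k (Finset.univ : Finset (Fin t)), μ.real (box x S) := by
    refine (measureReal_mono hcover (measure_ne_top μ _)).trans ?_
    refine (measureReal_biUnion_finset_le _ _).trans ?_
    exact Finset.sum_le_sum fun x _ => measureReal_biUnion_finset_le _ _
  have h2 : ∑ x ∈ (Finset.univ : Finset X),
        ∑ S ∈ Finset.powersetCard k (Finset.univ : Finset (Fin t)), μ.real (box x S) ≤
      ∑ _x ∈ (Finset.univ : Finset X),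
        ∑ _S ∈ Finset.powersetCard k (Finset.univ : Finset (Fin t)), q ^ k :=
    Finset.sum_le_sum fun x _ => Finset.sum_le_sum fun S hS => hmeas x S hS
  have h3 : ∑ _x ∈ (Finset.univ : Finset X),
        ∑ _S ∈ Finset.powersetCard k (Finset.univ : Finset (Fin t)), q ^ k =
      (Fintype.card X : ℝ) * (t.choose k : ℝ) * q ^ k := by
    simp [Finset.card_powersetCard, mul_assoc]
  have h4 : μ.real (Set.univ : Set (Fin t → Ω)) = 1 := by
    simp [hμ]
  linarith

/-- `t choose k ≤ (e t / k) ^ k`. -/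
theorem choose_le_exp (t k : ℕ) (hk : 1 ≤ k) :
    (t.choose k : ℝ) ≤ (Real.exp 1 * t / k) ^ k := by
  have hk0 : (0 : ℝ) < k := by exact_mod_cast hk
  have h1 : (t.choose k : ℝ) ≤ (t : ℝ) ^ k / (k.factorial : ℝ) := Nat.choose_le_pow_div k t
  have h2 : (k : ℝ) ^ k / (k.factorial : ℝ) ≤ Real.exp k :=
    Real.pow_div_factorial_le_exp (k : ℝ) hk0.le k
  have hf : (0 : ℝ) < (k.factorial : ℝ) := by exact_mod_cast Nat.factorial_pos k
  have hkk : (0 : ℝ) < (k : ℝ) ^ k := by positivity
  have h3 : 1 / (k.factorial : ℝ) ≤ Real.exp k / (k : ℝ) ^ k := by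
    rw [le_div_iff₀ hkk]
    calc 1 / (k.factorial : ℝ) * (k : ℝ) ^ k = (k : ℝ) ^ k / (k.factorial : ℝ) := by ring
      _ ≤ Real.exp k := h2
  calc (t.choose k : ℝ) ≤ (t : ℝ) ^ k / (k.factorial : ℝ) := h1
    _ = (t : ℝ) ^ k * (1 / (k.factorial : ℝ)) := by ring
    _ ≤ (t : ℝ) ^ k * (Real.exp k / (k : ℝ) ^ k) := by
        exact mul_le_mul_of_nonneg_left h3 (by positivity)
    _ = (Real.exp 1 * t / k) ^ k := by
        rw [div_pow, mul_pow, ← Real.exp_nat_mul, mul_one]
        ring

/-- The sample form with real thresholds: failure probability `q` for every `x`, target failure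
frequency `δ` (`q < δ / e`), and `t` seeds with `log |X| < δ t (log (δ / q) - 1)`. -/
theorem few_seeds_real {X Ω : Type*} [Fintype X] [MeasurableSpace Ω] (P : Measure Ω)
    [IsProbabilityMeasure P] (A : X → Set Ω) (q δ : ℝ) (hq : 0 < q) (hδ : 0 < δ)
    (hA : ∀ x, P.real (A x) ≤ q) (t : ℕ) (ht : 1 ≤ t)
    (hgap : 1 < Real.log (δ / q))
    (hX : Real.log (Fintype.card X) < δ * t * (Real.log (δ / q) - 1)) :
    ∃ ω : Fin t → Ω, ∀ x, ({s | ω s ∈ A x}.ncard : ℝ) < δ * t := by
  have ht0 : (0 : ℝ) < t := by exact_mod_cast ht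
  set k : ℕ := ⌈δ * t⌉₊ with hkdef
  have hδt : 0 < δ * t := mul_pos hδ ht0
  have hk1 : 1 ≤ k := Nat.one_le_ceil_iff.2 hδt
  have hk0 : (0 : ℝ) < k := by exact_mod_cast hk1
  have hkge : δ * t ≤ k := Nat.le_ceil _
  have hfac : Real.exp 1 * t / k * q ≤ Real.exp 1 * (q / δ) := by
    have : (t : ℝ) / k ≤ 1 / δ := by
      rw [div_le_div_iff₀ hk0 hδ]
      linarith
    calc Real.exp 1 * t / k * q = Real.exp 1 * q * ((t : ℝ) / k) := by ring
      _ ≤ Real.exp 1 * q * (1 / δ) := by
          exact mul_le_mul_of_nonneg_left this (by positivity)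
      _ = Real.exp 1 * (q / δ) := by ring
  have hpow : (t.choose k : ℝ) * q ^ k ≤ (Real.exp 1 * (q / δ)) ^ k := by
    calc (t.choose k : ℝ) * q ^ k ≤ (Real.exp 1 * t / k) ^ k * q ^ k := by
          exact mul_le_mul_of_nonneg_right (choose_le_exp t k hk1) (by positivity)
      _ = (Real.exp 1 * t / k * q) ^ k := by rw [mul_pow]
      _ ≤ (Real.exp 1 * (q / δ)) ^ k := pow_le_pow_left₀ (by positivity) hfac k
  have hbase : Real.exp 1 * (q / δ) = Real.exp (-(Real.log (δ / q) - 1)) := by
    have h1 : q / δ = Real.exp (-Real.log (δ / q)) := by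
      rw [Real.exp_neg, Real.exp_log (div_pos hδ hq), inv_div]
    rw [h1, ← Real.exp_add]
    congr 1
    ring
  rcases Nat.eq_zero_or_pos (Fintype.card X) with h0 | hpos
  · obtain ⟨ω⟩ : Nonempty Ω := P.nonempty_of_neZero
    refine ⟨fun _ => ω, fun x => ?_⟩
    exact absurd (Fintype.card_pos_iff.2 ⟨x⟩) (by omega)
  have hXpos : (0 : ℝ) < Fintype.card X := by exact_mod_cast hpos
  have hmain : (Fintype.card X : ℝ) * (t.choose k : ℝ) * q ^ k < 1 := by
    calc (Fintype.card X : ℝ) * (t.choose k : ℝ) * q ^ k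
        = (Fintype.card X : ℝ) * ((t.choose k : ℝ) * q ^ k) := by ring
      _ ≤ (Fintype.card X : ℝ) * (Real.exp 1 * (q / δ)) ^ k := by
          exact mul_le_mul_of_nonneg_left hpow hXpos.le
      _ = Real.exp (Real.log (Fintype.card X) + k * (-(Real.log (δ / q) - 1))) := by
          rw [hbase, ← Real.exp_nat_mul, Real.exp_add, Real.exp_log hXpos]
      _ < 1 := by
          rw [Real.exp_lt_one_iff]
          have : δ * t * (Real.log (δ / q) - 1) ≤ k * (Real.log (δ / q) - 1) :=
            mul_le_mul_of_nonneg_right hkge (by linarith)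
          linarith
  obtain ⟨ω, hω⟩ := few_seeds P A q hA t k hmain
  refine ⟨ω, fun x => ?_⟩
  exact Nat.lt_ceil.1 (hω x)

/-- The form used for routing: failure probability `n ^ (-α')` with unlimited randomness, failure
frequency less than `n ^ (-α)` with `t` seeds, `α < α'`, `|X| ≤ 2 ^ B` and
`n ^ α * B * log 2 < t * ((α' - α) log n - 1)`. -/
theorem few_seeds_pow {X Ω : Type*} [Fintype X] [MeasurableSpace Ω] (P : Measure Ω)
    [IsProbabilityMeasure P] (A : X → Set Ω) (n B t : ℕ) (α α' : ℝ)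
    (hgap : 1 < (α' - α) * Real.log n) (ht : 1 ≤ t)
    (hX : Fintype.card X ≤ 2 ^ B)
    (hA : ∀ x, P.real (A x) ≤ (n : ℝ) ^ (-α'))
    (hB : (n : ℝ) ^ α * (B * Real.log 2) < t * ((α' - α) * Real.log n - 1)) :
    ∃ ω : Fin t → Ω, ∀ x, ({s | ω s ∈ A x}.ncard : ℝ) < (n : ℝ) ^ (-α) * t := by
  have hn0 : (0 : ℝ) < n := by
    rcases Nat.eq_zero_or_pos n with h | h
    · subst h
      simp at hgap
      linarith
    · exact_mod_cast h
  rcases Nat.eq_zero_or_pos (Fintype.card X) with h0 | hpos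
  · obtain ⟨ω⟩ : Nonempty Ω := P.nonempty_of_neZero
    refine ⟨fun _ => ω, fun x => ?_⟩
    exact absurd (Fintype.card_pos_iff.2 ⟨x⟩) (by omega)
  have hXpos : (0 : ℝ) < Fintype.card X := by exact_mod_cast hpos
  have hlog : Real.log ((n : ℝ) ^ (-α) / (n : ℝ) ^ (-α')) = (α' - α) * Real.log n := by
    rw [← Real.rpow_sub hn0, Real.log_rpow hn0]
    ring
  have hcard : Real.log (Fintype.card X) ≤ B * Real.log 2 := by
    have h1 : (Fintype.card X : ℝ) ≤ 2 ^ B := by exact_mod_cast hX
    calc Real.log (Fintype.card X) ≤ Real.log (2 ^ B) := Real.log_le_log hXpos h1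
      _ = B * Real.log 2 := by rw [Real.log_pow]
  refine few_seeds_real P A ((n : ℝ) ^ (-α')) ((n : ℝ) ^ (-α)) (Real.rpow_pos_of_pos hn0 _)
    (Real.rpow_pos_of_pos hn0 _) hA t ht (by rw [hlog]; exact hgap) ?_
  rw [hlog]
  have h2 : (0 : ℝ) < (n : ℝ) ^ (-α) := Real.rpow_pos_of_pos hn0 _
  have h3 : (n : ℝ) ^ (-α) * ((n : ℝ) ^ α * (B * Real.log 2)) <
      (n : ℝ) ^ (-α) * (t * ((α' - α) * Real.log n - 1)) := mul_lt_mul_of_pos_left hB h2
  have h4 : (n : ℝ) ^ (-α) * (n : ℝ) ^ α = 1 := by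
    rw [← Real.rpow_add hn0]
    simp
  calc Real.log (Fintype.card X) ≤ B * Real.log 2 := hcard
    _ = (n : ℝ) ^ (-α) * ((n : ℝ) ^ α * (B * Real.log 2)) := by
        rw [← mul_assoc, h4, one_mul]
    _ < (n : ℝ) ^ (-α) * (t * ((α' - α) * Real.log n - 1)) := h3
    _ = (n : ℝ) ^ (-α) * t * ((α' - α) * Real.log n - 1) := by ring

end Pool.Agent.Det0225
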