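import Pool.Agent.Lib_MP_0225c1_det.Stat
import Pool.Agent.Lib_MP_0225c1_det.Upper

/-!
# MP_0225c1_lc: `n ^ (1 + α)` times a power of `log n` deterministic strategies are as good as
unlimited randomness
-/

namespace Pool.Agent.Det0225

open Pool.Agent.PR0225 (Net Coll cong)
open MeasureTheory

/-- the code of a collection: the first `ℓ` edges of every path -/
def code {G : Net} {n : ℕ} (ℓ : ℕ) (C : Coll G n) (i : Fin n) (l : Fin ℓ) : Option G.E :=
  (C.path i)[(l : ℕ)]?

theorem coll_ext {G : Net} {n : ℕ} {C C' : Coll G n} (h : C.path = C'.path) : C = C' := by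
  cases C; cases C'
  simp only at h
  subst h
  rfl

theorem code_inj {G : Net} {n : ℕ} (ℓ : ℕ) (C C' : Coll G n)
    (h : ∀ i, (C.path i).length ≤ ℓ) (h' : ∀ i, (C'.path i).length ≤ ℓ)
    (hc : code ℓ C = code ℓ C') : C = C' := by
  apply coll_ext
  funext i
  apply List.ext_getElem?
  intro l
  rcases Nat.lt_or_ge l ℓ with hl | hl
  · have := congrFun (congrFun hc i) ⟨l, hl⟩
    simpa [code] using this
  · rw [List.getElem?_eq_none ((h i).trans hl), List.getElem?_eq_none ((h' i).trans hl)]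

/-- **Few strategies are enough.** `0 ≤ α < α'`. For all large `n`, every network with at most
`n ^ 10` edges and every family `T` of time bounds: if some random strategy (a random element of an
arbitrary probability space of deterministic strategies) has, for every collection of `n` paths of
length at most `log n`, a slow packet with probability at most `n ^ (-α')`, then there are
`m ≤ n ^ (1 + α) (log n) ^ 2` deterministic strategies such that, for every such collection, the
proportion of those with a slow packet is less than `n ^ (-α)`. -/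
theorem few_outcomes (α α' : ℝ) (hα : 0 ≤ α) (h : α < α') : ∃ n₀ : ℕ, ∀ n ≥ n₀,
    ∀ (G : Net) (_ : Finite G.E), (Nat.card G.E : ℝ) ≤ (n : ℝ) ^ 10 →
    ∀ (T : Coll G n → Fin n → ℝ) (Ω : Type) (_ : MeasurableSpace Ω) (P : MeasureTheory.Measure Ω)
      (_ : MeasureTheory.IsProbabilityMeasure P) (σ : Ω → Strat G),
      (∀ C : Coll G n, (∀ i, ((C.path i).length : ℝ) ≤ Real.log n) →
        P.real {ω | Slow (σ ω) C (T C)} ≤ (n : ℝ) ^ (-α')) →
      ∃ (m : ℕ) (τ : Fin m → Strat G), 0 < m ∧ (m : ℝ) ≤ (n : ℝ) ^ (1 + α) * Real.log n ^ 2 ∧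
        ∀ C : Coll G n, (∀ i, ((C.path i).length : ℝ) ≤ Real.log n) →
          ({s | Slow (τ s) C (T C)}.ncard : ℝ) < (n : ℝ) ^ (-α) * m := by
  classical
  have hgap : 0 < α' - α := by linarith
  set β : ℝ := α' - α with hβ
  refine ⟨⌈Real.exp (44 / β + 2)⌉₊ + 2, fun n hn G hfin hE T Ω _ P _ σ hσ => ?_⟩
  have := hfin
  -- size of `n`
  have hnexp : Real.exp (44 / β + 2) ≤ n := by
    have h1 := Nat.le_ceil (Real.exp (44 / β + 2))
    have h2 : ((⌈Real.exp (44 / β + 2)⌉₊ : ℕ) : ℝ) ≤ (n : ℝ) := by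
      exact_mod_cast (by omega : ⌈Real.exp (44 / β + 2)⌉₊ ≤ n)
    linarith
  have hn2 : 2 ≤ n := by omega
  have hn2r : (2 : ℝ) ≤ n := by exact_mod_cast hn2
  have hn0 : (0 : ℝ) < n := by linarith
  have hlog : 44 / β + 2 ≤ Real.log n := by
    rw [Real.le_log_iff_exp_le hn0]
    exact hnexp
  have h44 : 0 < 44 / β := by positivity
  have hlog2 : 2 < Real.log n := by linarith
  have hlog0 : 0 < Real.log n := by linarith
  have hβlog : 44 + 2 * β ≤ β * Real.log n := by
    have := mul_le_mul_of_nonneg_left hlog hgap.le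
    have h1 : β * (44 / β + 2) = 44 + 2 * β := by
      field_simp
    linarith
  -- the class of collections
  set ℓ : ℕ := ⌊Real.log n⌋₊ with hℓ
  have hℓle : (ℓ : ℝ) ≤ Real.log n := Nat.floor_le hlog0.le
  let X : Type := {C : Coll G n // ∀ i, ((C.path i).length : ℝ) ≤ Real.log n}
  have hlen : ∀ (C : X) (i : Fin n), (C.1.path i).length ≤ ℓ := fun C i =>
    Nat.le_floor (C.2 i)
  have hinj : Function.Injective (fun C : X => code ℓ C.1) := by
    intro C C' hc
    exact Subtype.ext (code_inj ℓ C.1 C'.1 (hlen C) (hlen C') hc)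
  have : Fintype G.E := Fintype.ofFinite G.E
  have : Fintype X := Fintype.ofInjective _ hinj
  have hcard : (Fintype.card X : ℝ) ≤ ((Nat.card G.E : ℝ) + 1) ^ (n * ℓ) := by
    have h1 := Fintype.card_le_of_injective _ hinj
    have h2 : Fintype.card (Fin n → Fin ℓ → Option G.E) = (Nat.card G.E + 1) ^ (n * ℓ) := by
      simp only [Fintype.card_pi, Fintype.card_option, Finset.prod_const, Finset.card_univ,
        Fintype.card_fin, Nat.card_eq_fintype_card]
      rw [← pow_mul, Nat.mul_comm]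
    have h3 : Fintype.card X ≤ (Nat.card G.E + 1) ^ (n * ℓ) := by rw [← h2]; exact h1
    exact_mod_cast h3
  have hbase : (Nat.card G.E : ℝ) + 1 ≤ (n : ℝ) ^ 11 := by
    have h1 : (1 : ℝ) ≤ (n : ℝ) ^ 10 := one_le_pow₀ (by linarith)
    calc (Nat.card G.E : ℝ) + 1 ≤ (n : ℝ) ^ 10 + (n : ℝ) ^ 10 := by linarith
      _ = 2 * (n : ℝ) ^ 10 := by ring
      _ ≤ n * (n : ℝ) ^ 10 := by
          exact mul_le_mul_of_nonneg_right hn2r (by positivity)
      _ = (n : ℝ) ^ 11 := by ring
  have hlogX : Real.log (Fintype.card X) ≤ 11 * n * Real.log n ^ 2 := by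
    rcases Nat.eq_zero_or_pos (Fintype.card X) with h0 | hpos
    · rw [h0]
      simp only [Nat.cast_zero, Real.log_zero]
      positivity
    have hXpos : (0 : ℝ) < Fintype.card X := by exact_mod_cast hpos
    have h0 : (0 : ℝ) < (Nat.card G.E : ℝ) + 1 := by positivity
    calc Real.log (Fintype.card X) ≤ Real.log (((Nat.card G.E : ℝ) + 1) ^ (n * ℓ)) :=
          Real.log_le_log hXpos hcard
      _ = (n * ℓ : ℕ) * Real.log ((Nat.card G.E : ℝ) + 1) := by rw [Real.log_pow]
      _ ≤ (n * ℓ : ℕ) * Real.log ((n : ℝ) ^ 11) := by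
          exact mul_le_mul_of_nonneg_left (Real.log_le_log h0 hbase) (by positivity)
      _ = n * ℓ * (11 * Real.log n) := by
          rw [Real.log_pow]
          push_cast
          ring
      _ ≤ n * Real.log n * (11 * Real.log n) := by
          refine mul_le_mul_of_nonneg_right ?_ (by positivity)
          exact mul_le_mul_of_nonneg_left hℓle hn0.le
      _ = 11 * n * Real.log n ^ 2 := by ring
  -- number of seeds
  have hpow1 : (n : ℝ) ≤ (n : ℝ) ^ (1 + α) := by
    calc (n : ℝ) = (n : ℝ) ^ (1 : ℝ) := (Real.rpow_one _).symm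
      _ ≤ (n : ℝ) ^ (1 + α) := Real.rpow_le_rpow_of_exponent_le (by linarith) (by linarith)
  set w : ℝ := (n : ℝ) ^ (1 + α) * Real.log n ^ 2 with hw
  have hw8 : 8 ≤ w := by
    have h1 : (4 : ℝ) ≤ Real.log n ^ 2 := by nlinarith
    have h2 : (2 : ℝ) ≤ (n : ℝ) ^ (1 + α) := by linarith
    calc (8 : ℝ) = 2 * 4 := by norm_num
      _ ≤ (n : ℝ) ^ (1 + α) * Real.log n ^ 2 := mul_le_mul h2 h1 (by norm_num) (by linarith)
  set t : ℕ := ⌊w⌋₊ with ht
  have htle : (t : ℝ) ≤ w := Nat.floor_le (by linarith)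
  have htge : w / 2 ≤ t := by
    have := Nat.lt_floor_add_one w
    have h1 : w < (t : ℝ) + 1 := by rw [ht]; exact_mod_cast this
    linarith
  have ht1 : 1 ≤ t := Nat.one_le_floor_iff w |>.2 (by linarith)
  -- the real inequality
  have hq : (0 : ℝ) < (n : ℝ) ^ (-α') := Real.rpow_pos_of_pos hn0 _
  have hδ : (0 : ℝ) < (n : ℝ) ^ (-α) := Real.rpow_pos_of_pos hn0 _
  have hquot : Real.log ((n : ℝ) ^ (-α) / (n : ℝ) ^ (-α')) = β * Real.log n := by
    rw [← Real.rpow_sub hn0, Real.log_rpow hn0, hβ]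
    ring
  have hmain : Real.log (Fintype.card X) <
      (n : ℝ) ^ (-α) * t * (Real.log ((n : ℝ) ^ (-α) / (n : ℝ) ^ (-α')) - 1) := by
    rw [hquot]
    have h1 : (n : ℝ) ^ (-α) * (w / 2) = n * Real.log n ^ 2 / 2 := by
      rw [hw]
      have : (n : ℝ) ^ (-α) * (n : ℝ) ^ (1 + α) = n := by
        rw [← Real.rpow_add hn0]
        ring_nf
        exact Real.rpow_one _
      calc (n : ℝ) ^ (-α) * ((n : ℝ) ^ (1 + α) * Real.log n ^ 2 / 2)
          = ((n : ℝ) ^ (-α) * (n : ℝ) ^ (1 + α)) * Real.log n ^ 2 / 2 := by ring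
        _ = n * Real.log n ^ 2 / 2 := by rw [this]
    have h2 : n * Real.log n ^ 2 / 2 ≤ (n : ℝ) ^ (-α) * t := by
      rw [← h1]
      exact mul_le_mul_of_nonneg_left htge hδ.le
    have h3 : 22 < β * Real.log n - 1 := by linarith
    have h4 : 0 < n * Real.log n ^ 2 / 2 := by positivity
    calc Real.log (Fintype.card X) ≤ 11 * n * Real.log n ^ 2 := hlogX
      _ = n * Real.log n ^ 2 / 2 * 22 := by ring
      _ < n * Real.log n ^ 2 / 2 * (β * Real.log n - 1) := mul_lt_mul_of_pos_left h3 h4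
      _ ≤ (n : ℝ) ^ (-α) * t * (β * Real.log n - 1) :=
          mul_le_mul_of_nonneg_right h2 (by linarith)
  obtain ⟨ω, hω⟩ := few_seeds_real P
    (fun C : X => {ω | Slow (σ ω) C.1 (T C.1)}) ((n : ℝ) ^ (-α')) ((n : ℝ) ^ (-α)) hq hδ
    (fun C => hσ C.1 C.2) t ht1 (by rw [hquot]; linarith) hmain
  refine ⟨t, fun s => σ (ω s), ht1, htle, fun C hC => ?_⟩
  exact hω ⟨C, hC⟩

end Pool.Agent.Det0225
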