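import Pool.Agent.Lib_MP_0225c1_det.Num

/-!
# MP_0225c1_lc, deterministic strategies: the choice of the parameters for a large stretch
-/

open Filter

set_option maxHeartbeats 1000000

namespace Pool.Agent.Det0225

/-- **The choice of the parameters for a large stretch.** -/
theorem params2 (ε γ : ℝ) (hε : 0 < ε) (hε1 : ε ≤ 1) (hγ : 0 < γ) :
    ∃ n₀ : ℕ, ∀ n ≥ n₀, 1 ≤ n ∧
      ∃ c d : ℕ, 1 ≤ c ∧ 1 ≤ d ∧ ((2 * d - 1 : ℕ) : ℝ) ≤ Real.log n ∧
      (n : ℝ) ^ (1 - ε) ≤ (n / c ^ d : ℕ) ∧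
      ε / (48 * (γ + 3)) * (Real.log n / Real.log (Real.log n)) *
        (c + (2 * d - 1 : ℕ) + Real.log n ^ γ) < (c * d + d - 1 : ℕ) ∧
      2 * d * Mst c d n ≤ n ^ 3 := by
  set η : ℝ := ε / (6 * (γ + 3)) with hη
  have hη0 : 0 < η := by positivity
  have hη1 : η * (γ + 3) = ε / 6 := by rw [hη]; field_simp
  have hη8 : ε / (48 * (γ + 3)) = η / 8 := by
    have h3 : (0 : ℝ) < γ + 3 := by linarith
    rw [hη, div_div]
    congr 1
    ring
  have hη2 : η ≤ 1 := by nlinarith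
  -- `log n / log log n` is large
  have hll : Tendsto (fun n : ℕ => Real.log (Real.log n)) atTop atTop :=
    Real.tendsto_log_atTop.comp (Real.tendsto_log_atTop.comp
      (tendsto_natCast_atTop_atTop (R := ℝ)))
  have hratio : ∀ᶠ n : ℕ in atTop, Real.log (Real.log n) ≤ η / 2 * Real.log n := by
    have h := Real.isLittleO_log_id_atTop.def (c := η / 2) (by positivity)
    have h1 := (Real.tendsto_log_atTop.comp (tendsto_natCast_atTop_atTop (R := ℝ))).eventually h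
    filter_upwards [h1, eventually_log_ge 1] with n hn hn1
    simp only [Function.comp, id] at hn
    rw [Real.norm_of_nonneg (by linarith : (0 : ℝ) ≤ Real.log n)] at hn
    exact le_trans (le_abs_self _) hn
  have hev : ∀ᶠ n : ℕ in atTop, 1 ≤ n ∧ 4 ≤ Real.log n ∧ 1 ≤ Real.log (Real.log n) ∧
      Real.log (Real.log n) ≤ η / 2 * Real.log n ∧
      (2 : ℝ) ≤ (n : ℝ) ^ (ε / 2) ∧
      100 * Real.log n ^ (3 * (γ + 2) + 3) ≤ (n : ℝ) ^ (1 / 2 : ℝ) := by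
    have h5 : ∀ᶠ n : ℕ in atTop, (2 : ℝ) ≤ (n : ℝ) ^ (ε / 2) :=
      ((tendsto_rpow_atTop (by positivity : 0 < ε / 2)).comp
        (tendsto_natCast_atTop_atTop (R := ℝ))).eventually (eventually_ge_atTop 2)
    have h6 : ∀ᶠ n : ℕ in atTop,
        100 * Real.log n ^ (3 * (γ + 2) + 3) ≤ (n : ℝ) ^ (1 / 2 : ℝ) := by
      have h := (isLittleO_log_rpow_rpow_atTop (3 * (γ + 2) + 3)
        (by norm_num : (0 : ℝ) < 1 / 2)).def (c := 1 / 100) (by norm_num)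
      have h1 := (tendsto_natCast_atTop_atTop (R := ℝ)).eventually h
      filter_upwards [h1, eventually_log_ge 1] with n hn hn1
      rw [Real.norm_of_nonneg (Real.rpow_nonneg (by linarith) _),
        Real.norm_of_nonneg (Real.rpow_nonneg (Nat.cast_nonneg _) _)] at hn
      linarith
    filter_upwards [eventually_ge_atTop 1, eventually_log_ge 4,
      hll.eventually (eventually_ge_atTop 1), hratio, h5, h6] with n h1 h2 h3 h4 h5 h6
    exact ⟨h1, h2, h3, h4, h5, h6⟩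
  obtain ⟨n₀, hn₀⟩ := eventually_atTop.1 hev
  refine ⟨n₀, fun n hn => ?_⟩
  obtain ⟨hn1, hℓ4, hla1, hlal, hn2, hn3⟩ := hn₀ n hn
  refine ⟨hn1, ?_⟩
  set ℓ := Real.log n with hℓ
  set lam := Real.log ℓ with hlam
  have hn1' : (1 : ℝ) ≤ n := by exact_mod_cast hn1
  have hn0' : (0 : ℝ) < n := by linarith
  have hℓ0 : 0 < ℓ := by linarith
  have hlam0 : 0 < lam := by linarith
  have hℓexp : Real.exp lam = ℓ := Real.exp_log hℓ0
  have hnexp : Real.exp ℓ = n := Real.exp_log hn0'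
  set d := ⌊η * ℓ / lam⌋₊ with hd
  have hx2 : 2 ≤ η * ℓ / lam := by
    rw [le_div_iff₀ hlam0]; linarith
  have hdle : (d : ℝ) ≤ η * ℓ / lam := Nat.floor_le (by positivity)
  have hdge : η * ℓ / lam < d + 1 := Nat.lt_floor_add_one _
  have hd1' : (1 : ℝ) < d := by linarith
  have hd1 : 1 ≤ d := by exact_mod_cast hd1'.le
  have hdlam : (d : ℝ) * lam ≤ η * ℓ := by rwa [le_div_iff₀ hlam0] at hdle
  have hdℓ : (d : ℝ) ≤ η * ℓ := by nlinarith
  set c := ⌈ℓ ^ (γ + 1)⌉₊ with hc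
  have hlg : 1 ≤ ℓ ^ γ := Real.one_le_rpow (by linarith) hγ.le
  have hlg1 : ℓ ^ (γ + 1) = ℓ ^ γ * ℓ := Real.rpow_add_one hℓ0.ne' γ
  have hlg2 : 1 ≤ ℓ ^ (γ + 1) := Real.one_le_rpow (by linarith) (by linarith)
  have hcge : ℓ ^ (γ + 1) ≤ c := Nat.le_ceil _
  have hcle : (c : ℝ) ≤ ℓ ^ (γ + 2) := by
    have h1 : (c : ℝ) < ℓ ^ (γ + 1) + 1 := Nat.ceil_lt_add_one (by linarith)
    have h2 : ℓ ^ (γ + 2) = ℓ ^ (γ + 1) * ℓ := by
      rw [← Real.rpow_add_one hℓ0.ne']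
      congr 1
      ring
    rw [h2]
    nlinarith
  have hc1' : (1 : ℝ) ≤ c := by linarith
  have hc1 : 1 ≤ c := by exact_mod_cast hc1'
  have hrp : ∀ (a : ℝ) (k : ℕ), (ℓ ^ a) ^ k = Real.exp (a * k * lam) := by
    intro a k
    rw [← Real.rpow_natCast (ℓ ^ a) k, ← Real.rpow_mul hℓ0.le, Real.rpow_def_of_pos hℓ0]
    congr 1
    ring
  have hcd : (c : ℝ) ^ d ≤ (n : ℝ) ^ (ε / 2) := by
    calc (c : ℝ) ^ d ≤ (ℓ ^ (γ + 2)) ^ d := by gcongr
      _ = Real.exp ((γ + 2) * d * lam) := hrp _ _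
      _ ≤ Real.exp (ℓ * (ε / 2)) := by
          apply Real.exp_le_exp.2
          calc (γ + 2) * d * lam = (γ + 2) * (d * lam) := by ring
            _ ≤ (γ + 2) * (η * ℓ) := by gcongr
            _ ≤ (η * (γ + 3)) * ℓ := by nlinarith [mul_pos hη0 hℓ0]
            _ = (ε / 6) * ℓ := by rw [hη1]
            _ ≤ ℓ * (ε / 2) := by nlinarith
      _ = (n : ℝ) ^ (ε / 2) := (Real.rpow_def_of_pos hn0' _).symm
  have hcdp : 0 < c ^ d := by positivity
  have hεn : (n : ℝ) ^ (ε / 2) ≤ n := by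
    calc (n : ℝ) ^ (ε / 2) ≤ (n : ℝ) ^ (1 : ℝ) :=
          Real.rpow_le_rpow_of_exponent_le hn1' (by linarith)
      _ = n := Real.rpow_one _
  have hcdn' : c ^ d ≤ n := by
    have : (c : ℝ) ^ d ≤ n := le_trans hcd hεn
    exact_mod_cast this
  have hℓγ : ℓ ≤ c := by
    have : ℓ ≤ ℓ ^ (γ + 1) := by rw [hlg1]; nlinarith
    linarith
  have hℓγ2 : ℓ ^ γ ≤ c := by
    have : ℓ ^ γ ≤ ℓ ^ (γ + 1) := by rw [hlg1]; nlinarith
    linarith
  have h2d : ((2 * d - 1 : ℕ) : ℝ) ≤ ℓ := by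
    have h1 : ((2 * d - 1 : ℕ) : ℝ) ≤ 2 * d := by
      have : 2 * d - 1 ≤ 2 * d := Nat.sub_le _ _
      exact_mod_cast this
    have h2 : η ≤ 1 / 2 := by nlinarith
    nlinarith
  refine ⟨c, d, hc1, hd1, h2d, ?_, ?_, ?_⟩
  · -- number of blocks
    have h1 : n < (n / c ^ d + 1) * c ^ d := by
      have := Nat.lt_div_mul_add (a := n) hcdp
      rw [add_mul, one_mul]
      exact this
    have h2 : 1 ≤ n / c ^ d := (Nat.one_le_div_iff hcdp).2 hcdn'
    have h3 : (n : ℝ) ≤ ((n / c ^ d : ℕ) : ℝ) * (2 * (c : ℝ) ^ d) := by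
      have : n ≤ (n / c ^ d) * (2 * c ^ d) := by nlinarith
      exact_mod_cast this
    have h4 : 2 * (c : ℝ) ^ d ≤ (n : ℝ) ^ ε := by
      have : (n : ℝ) ^ ε = (n : ℝ) ^ (ε / 2) * (n : ℝ) ^ (ε / 2) := by
        rw [← Real.rpow_add hn0']; congr 1; ring
      rw [this]
      exact mul_le_mul hn2 hcd (by positivity) (by positivity)
    have h5 : (n : ℝ) ^ (1 - ε) = n / (n : ℝ) ^ ε := by
      rw [Real.rpow_sub hn0', Real.rpow_one]
    rw [h5, div_le_iff₀ (Real.rpow_pos_of_pos hn0' _)]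
    refine le_trans h3 ?_
    gcongr
  · -- stretch
    have e3 : ((c * d + d - 1 : ℕ) : ℝ) = c * d + d - 1 := by
      rw [Nat.cast_sub (by nlinarith)]
      push_cast
      ring
    rw [e3]
    have h1 : (c : ℝ) + (2 * d - 1 : ℕ) + ℓ ^ γ ≤ 3 * c := by linarith
    have h2 : η * ℓ / lam ≤ 2 * d := by linarith
    have h3 : ε / (48 * (γ + 3)) * (ℓ / lam) = 1 / 8 * (η * ℓ / lam) := by
      rw [hη8]; ring
    have h5 : 0 ≤ ε / (48 * (γ + 3)) * (ℓ / lam) := by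
      rw [h3]
      exact mul_nonneg (by norm_num) (by linarith)
    calc ε / (48 * (γ + 3)) * (ℓ / lam) * (c + (2 * d - 1 : ℕ) + ℓ ^ γ)
        ≤ ε / (48 * (γ + 3)) * (ℓ / lam) * (3 * c) := mul_le_mul_of_nonneg_left h1 h5
      _ = 1 / 8 * (η * ℓ / lam) * (3 * c) := by rw [h3]
      _ ≤ 1 / 8 * (2 * d) * (3 * c) := by gcongr
      _ = 3 / 4 * (c * d) := by ring
      _ < c * d + d - 1 := by nlinarith
  · -- size of the network
    have h1 := Mst_le hc1 hd1 hn1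
    have h2 : c * (d + 1) + 1 ≤ c * (d + 2) := by nlinarith
    have h3 : 2 * d * Mst c d n ≤ n ^ 2 * (100 * (c * d) ^ 3 * ((c * (d + 2)) ^ (3 * d))) := by
      calc 2 * d * Mst c d n
          ≤ 2 * d * (50 * n ^ 2 * c ^ 3 * d ^ 2 * ((c * (d + 1) + 1) ^ d) ^ 3) :=
            Nat.mul_le_mul_left _ h1
        _ ≤ 2 * d * (50 * n ^ 2 * c ^ 3 * d ^ 2 * ((c * (d + 2)) ^ d) ^ 3) := by gcongr
        _ = n ^ 2 * (100 * (c * d) ^ 3 * ((c * (d + 2)) ^ (3 * d))) := by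
            rw [← pow_mul (c * (d + 2)) d 3, Nat.mul_comm d 3]
            ring
    have h4 : ((100 * (c * d) ^ 3 * ((c * (d + 2)) ^ (3 * d)) : ℕ) : ℝ) ≤ n := by
      push_cast
      have hdl : (d : ℝ) + 2 ≤ ℓ := by
        have h2 : η ≤ 1 / 2 := by nlinarith
        nlinarith
      have hdl' : (d : ℝ) ≤ ℓ := by linarith
      have h5 : ((c : ℝ) * d) ^ 3 ≤ ℓ ^ (3 * (γ + 2) + 3) := by
        calc ((c : ℝ) * d) ^ 3 ≤ (ℓ ^ (γ + 2) * ℓ) ^ 3 := by gcongr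
          _ = ℓ ^ (3 * (γ + 2) + 3) := by
              rw [← Real.rpow_add_one hℓ0.ne', ← Real.rpow_natCast (ℓ ^ (γ + 2 + 1)) 3,
                ← Real.rpow_mul hℓ0.le]
              congr 1
              push_cast
              ring
      have h6 : ((c : ℝ) * (d + 2)) ^ (3 * d) ≤ (n : ℝ) ^ (1 / 2 : ℝ) := by
        calc ((c : ℝ) * (d + 2)) ^ (3 * d) ≤ (ℓ ^ (γ + 2) * ℓ) ^ (3 * d) := by gcongr
          _ = (ℓ ^ (γ + 3)) ^ (3 * d) := by
              rw [← Real.rpow_add_one hℓ0.ne']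
              congr 2
              ring
          _ = Real.exp ((γ + 3) * ((3 * d : ℕ) : ℝ) * lam) := hrp _ _
          _ ≤ Real.exp (ℓ * (1 / 2)) := by
              apply Real.exp_le_exp.2
              push_cast
              calc (γ + 3) * (3 * (d : ℝ)) * lam = 3 * (γ + 3) * (d * lam) := by ring
                _ ≤ 3 * (γ + 3) * (η * ℓ) := by gcongr
                _ = 3 * (η * (γ + 3)) * ℓ := by ring
                _ = 3 * (ε / 6) * ℓ := by rw [hη1]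
                _ ≤ ℓ * (1 / 2) := by nlinarith
          _ = (n : ℝ) ^ (1 / 2 : ℝ) := (Real.rpow_def_of_pos hn0' _).symm
      calc 100 * ((c : ℝ) * d) ^ 3 * ((c : ℝ) * (d + 2)) ^ (3 * d)
          ≤ 100 * ℓ ^ (3 * (γ + 2) + 3) * (n : ℝ) ^ (1 / 2 : ℝ) := by gcongr
        _ ≤ (n : ℝ) ^ (1 / 2 : ℝ) * (n : ℝ) ^ (1 / 2 : ℝ) := by gcongr
        _ = n := by
            rw [← Real.rpow_add hn0']
            norm_num
    have h5 : 100 * (c * d) ^ 3 * ((c * (d + 2)) ^ (3 * d)) ≤ n := by exact_mod_cast h4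
    calc 2 * d * Mst c d n ≤ n ^ 2 * n := le_trans h3 (Nat.mul_le_mul_left _ h5)
      _ = n ^ 3 := by ring

end Pool.Agent.Det0225
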