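import Pool.Agent.Lib_MP_0225c1_det.Props
import Pool.Agent.Lib_MP_0225c1_det.Num2

/-!
# MP_0225c1_lc, deterministic strategies: the lower bounds
-/

namespace Pool.Agent.Det0225

open Pool.Agent.PR0225 (Net Coll cong)

/-- **Many deterministic strategies at the same time.** -/
theorem many_gen (c d n : ℕ) (hc : 1 ≤ c) (hd : 1 ≤ d) (hn : 1 ≤ n) :
    ∃ (G : Net) (lev : G.V → ℕ), Finite G.V ∧ Finite G.E ∧ Nat.card G.V = 2 * d * Mst c d n ∧
      Nat.card G.E ≤ (2 * d * Mst c d n) ^ 2 ∧ Leveled G lev ∧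
      ∀ (Ω : Type) (_ : Finite Ω) (σ : Ω → Strat G), ∃ C : Coll G n, ShortcutFree C ∧
        (∀ i e, (C.path i)[0]? = some e → lev (G.src e) = 0) ∧
        (∀ i, (C.path i).length = 2 * d - 1) ∧ (∀ e, cong C.path e ≤ c) ∧
        (∀ i, ((C.path i).map (cong C.path)).sum ≤ c * d + d - 1) ∧
        min (Nat.card Ω) (n / c ^ d) ≤
          {ω | ∃ i, ∀ t, Arrived (σ ω) C t i → c * d + d - 1 ≤ t}.ncard := by
  classical
  set M := Mst c d n with hM
  have hV : Nat.card (lnet d M).V = 2 * d * M := by simp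
  have hE : Nat.card (lnet d M).E = (2 * d - 1) * (M * M) := by simp
  refine ⟨lnet d M, llev d M, inferInstance, inferInstance, hV, ?_, leveled_lnet d M,
    fun Ω _ σ => ?_⟩
  · rw [hE]
    have h2 : 2 * d - 1 ≤ (2 * d) * (2 * d) := by nlinarith [Nat.sub_le (2 * d) 1]
    calc (2 * d - 1) * (M * M) ≤ ((2 * d) * (2 * d)) * (M * M) := Nat.mul_le_mul_right _ h2
      _ = (2 * d * M) ^ 2 := by ring
  · have : Fintype Ω := Fintype.ofFinite Ω
    set m := min (Fintype.card Ω) (n / c ^ d) with hm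
    let e := Fintype.equivFin Ω
    set g : Fin m → Ω := fun r => e.symm (Fin.castLE (min_le_left _ _) r) with hg
    have hginj : Function.Injective g :=
      e.symm.injective.comp (Fin.castLE_injective _)
    obtain ⟨x, h1, h2, h3⟩ := exists_blocks c d n m hc hd hn
      (le_trans (Nat.mul_le_mul_right _ (min_le_right _ _)) (Nat.div_mul_le_self _ _)) le_rfl
      (fun r => σ (g r))
    refine ⟨lcoll d Finset.univ x, shortcutFree x h2, sources x, length_path x,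
      cong_lcoll x h1, sum_cong_le hd x h1 h2, ?_⟩
    rw [Nat.card_eq_fintype_card]
    calc m = (Set.range g).ncard := by
          rw [← Set.image_univ, Set.ncard_image_of_injective _ hginj, Set.ncard_univ,
            Nat.card_eq_fintype_card, Fintype.card_fin]
      _ ≤ _ := Set.ncard_le_ncard (by
          rintro _ ⟨r, rfl⟩
          obtain ⟨i, hi⟩ := h3 r
          exact ⟨i, fun t ht => needs_of_late hd _ x i hi t ht⟩) (Set.toFinite _)

/-- The lower bound in real terms: if `T` is less than `c d + d - 1`. -/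
theorem many_real (c d n : ℕ) (hc : 1 ≤ c) (hd : 1 ≤ d) (hn : 1 ≤ n)
    (hlen : ((2 * d - 1 : ℕ) : ℝ) ≤ Real.log n) (hsize : 2 * d * Mst c d n ≤ n ^ 3)
    (F q γ : ℝ) (hF : F * (c + (2 * d - 1 : ℕ) + Real.log n ^ γ) < (c * d + d - 1 : ℕ))
    (hq : q ≤ (n / c ^ d : ℕ)) :
    ∃ (G : Net) (lev : G.V → ℕ), Finite G.V ∧ Finite G.E ∧
      (Nat.card G.V : ℝ) ≤ (n : ℝ) ^ 3 ∧ (Nat.card G.E : ℝ) ≤ (n : ℝ) ^ 6 ∧ Leveled G lev ∧
      ∀ (Ω : Type) (_ : Finite Ω) (σ : Ω → Strat G), ∃ (C : Coll G n) (c : ℕ),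
        ShortcutFree C ∧ (∀ i e, (C.path i)[0]? = some e → lev (G.src e) = 0) ∧
        (∀ i, ((C.path i).length : ℝ) ≤ Real.log n) ∧ (∀ e, cong C.path e ≤ c) ∧
        min (Nat.card Ω : ℝ) q ≤ ({ω | Slow (σ ω) C fun i =>
            F * (c + (C.path i).length + Real.log n ^ γ)}.ncard : ℝ) := by
  obtain ⟨G, lev, hV, hE, hV', hE', hlev, h⟩ := many_gen c d n hc hd hn
  refine ⟨G, lev, hV, hE, ?_, ?_, hlev, fun Ω hΩ σ => ?_⟩
  · rw [hV']; exact_mod_cast hsize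
  · have h1 : Nat.card G.E ≤ (n ^ 3) ^ 2 := hE'.trans (Nat.pow_le_pow_left hsize 2)
    have h2 : Nat.card G.E ≤ n ^ 6 := h1.trans (by rw [← pow_mul])
    exact_mod_cast h2
  · obtain ⟨C, h1, h2, h3, h4, -, h6⟩ := h Ω hΩ σ
    refine ⟨C, c, h1, h2, fun i => by rw [h3 i]; exact hlen, h4, ?_⟩
    have h7 : {ω | ∃ i, ∀ t, Arrived (σ ω) C t i → c * d + d - 1 ≤ t}.ncard ≤
        {ω | Slow (σ ω) C fun i => F * (c + (C.path i).length + Real.log n ^ γ)}.ncard := by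
      refine Set.ncard_le_ncard ?_ (Set.toFinite _)
      rintro ω ⟨i, hi⟩
      refine ⟨i, fun t ht => ?_⟩
      have h8 : ((c * d + d - 1 : ℕ) : ℝ) ≤ t := by exact_mod_cast hi t ht
      beta_reduce
      rw [h3 i]
      exact lt_of_lt_of_le hF h8
    have h8 : min (Nat.card Ω : ℝ) ((n / c ^ d : ℕ) : ℝ) ≤
        ({ω | Slow (σ ω) C fun i =>
          F * (c + (C.path i).length + Real.log n ^ γ)}.ncard : ℝ) := by
      have := h6.trans h7
      exact_mod_cast this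
    exact le_trans (min_le_min_left _ hq) h8

/-- constant stretch -/
theorem many (K γ : ℝ) (hK : 0 < K) (hγ : 0 < γ) : ∃ (A : ℝ) (n₀ : ℕ), ∀ n ≥ n₀,
    ∃ (G : Net) (lev : G.V → ℕ), Finite G.V ∧ Finite G.E ∧
      (Nat.card G.V : ℝ) ≤ (n : ℝ) ^ 3 ∧ (Nat.card G.E : ℝ) ≤ (n : ℝ) ^ 6 ∧ Leveled G lev ∧
      ∀ (Ω : Type) (_ : Finite Ω) (σ : Ω → Strat G), ∃ (C : Coll G n) (c : ℕ),
        ShortcutFree C ∧ (∀ i e, (C.path i)[0]? = some e → lev (G.src e) = 0) ∧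
        (∀ i, ((C.path i).length : ℝ) ≤ Real.log n) ∧ (∀ e, cong C.path e ≤ c) ∧
        min (Nat.card Ω : ℝ) (n / Real.log n ^ A) ≤ ({ω | Slow (σ ω) C fun i =>
            K * (c + (C.path i).length + Real.log n ^ γ)}.ncard : ℝ) := by
  obtain ⟨A, d, n₀, hd, hpar⟩ := params K γ hK hγ
  refine ⟨A, n₀, fun n hn => ?_⟩
  obtain ⟨hn1, hlen, c, hc, hJ, hKc, hsize⟩ := hpar n hn
  exact many_real c d n hc hd hn1 hlen hsize K _ γ hKc hJ

/-- large stretch -/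
theorem many2 (ε γ : ℝ) (hε : 0 < ε) (hε1 : ε ≤ 1) (hγ : 0 < γ) : ∃ n₀ : ℕ, ∀ n ≥ n₀,
    ∃ (G : Net) (lev : G.V → ℕ), Finite G.V ∧ Finite G.E ∧
      (Nat.card G.V : ℝ) ≤ (n : ℝ) ^ 3 ∧ (Nat.card G.E : ℝ) ≤ (n : ℝ) ^ 6 ∧ Leveled G lev ∧
      ∀ (Ω : Type) (_ : Finite Ω) (σ : Ω → Strat G), ∃ (C : Coll G n) (c : ℕ),
        ShortcutFree C ∧ (∀ i e, (C.path i)[0]? = some e → lev (G.src e) = 0) ∧
        (∀ i, ((C.path i).length : ℝ) ≤ Real.log n) ∧ (∀ e, cong C.path e ≤ c) ∧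
        min (Nat.card Ω : ℝ) ((n : ℝ) ^ (1 - ε)) ≤ ({ω | Slow (σ ω) C fun i =>
            ε / (48 * (γ + 3)) * (Real.log n / Real.log (Real.log n)) *
              (c + (C.path i).length + Real.log n ^ γ)}.ncard : ℝ) := by
  obtain ⟨n₀, hpar⟩ := params2 ε γ hε hε1 hγ
  refine ⟨n₀, fun n hn => ?_⟩
  obtain ⟨hn1, c, d, hc, hd, hlen, hJ, hKc, hsize⟩ := hpar n hn
  exact many_real c d n hc hd hn1 hlen hsize _ _ γ hKc hJ

end Pool.Agent.Det0225
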