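import Pool.Agent.Lib_MP_0225c1_det.Layer
import Pool.Agent.Lib_MP_0225c1_det.Comb

/-!
# MP_0225c1_lc, deterministic strategies: gadgets
-/

namespace Pool.Agent.Det0225

open Pool.Agent.PR0225 (Net Coll cong)

variable {d M n : ℕ}

/-- Gadget of height `k` on the set of names `N`: the packets of `N` have the labels `x` (all others
are absent), the designated packet `i₀` has the tail `π`, all other labels avoid `F` and the tail,
the congestion is at most `c`, two packets have the same label at one level at most, and `i₀` is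
late. -/
structure IsGad (c : ℕ) (σ : Strat (lnet d M)) (k : ℕ) (N : Finset (Fin n)) (F : Finset (Fin M))
    (π : ℕ → Fin M) (x : Fin n → ℕ → Fin M) (i₀ : Fin n) : Prop where
  mem : i₀ ∈ N
  tail : ∀ j, k ≤ j → j < d → x i₀ j = π j
  low : ∀ j < k, x i₀ j ∉ F
  oth : ∀ i ∈ N, i ≠ i₀ → ∀ j < d, x i j ∉ F ∧ x i j ∉ tl d k π
  cong : ∀ j < d, ∀ a, (N.filter fun i => x i j = a).card ≤ c
  share : ∀ i ∈ N, ∀ i' ∈ N, i ≠ i' → ∀ j < d, ∀ j' < d, x i j = x i' j → x i j' = x i' j' →
    j = j'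
  late : (run σ (lcoll d N x) (k * (c + 1) - 2)).pos i₀ ≤ 2 * k - 2

theorem IsGad.congr {c : ℕ} {σ : Strat (lnet d M)} {k : ℕ} {N : Finset (Fin n)}
    {F : Finset (Fin M)} {π : ℕ → Fin M} {x y : Fin n → ℕ → Fin M} {i₀ : Fin n}
    (h : IsGad c σ k N F π x i₀) (hxy : ∀ i ∈ N, x i = y i) : IsGad c σ k N F π y i₀ where
  mem := h.mem
  tail j h1 h2 := by rw [← hxy _ h.mem]; exact h.tail j h1 h2
  low j hj := by rw [← hxy _ h.mem]; exact h.low j hj
  oth i hi hne j hj := by rw [← hxy _ hi]; exact h.oth i hi hne j hj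
  cong j hj a := by
    have : (N.filter fun i => y i j = a) = N.filter fun i => x i j = a :=
      Finset.filter_congr fun i hi => by rw [hxy i hi]
    rw [this]; exact h.cong j hj a
  share i hi i' hi' := by rw [← hxy _ hi, ← hxy _ hi']; exact h.share i hi i' hi'
  late := by rw [← lcoll_congr hxy]; exact h.late

theorem IsGad.mono {c : ℕ} {σ : Strat (lnet d M)} {k : ℕ} {N : Finset (Fin n)}
    {F F' : Finset (Fin M)} {π : ℕ → Fin M} {x : Fin n → ℕ → Fin M} {i₀ : Fin n}
    (h : IsGad c σ k N F π x i₀) (hF : F' ⊆ F) : IsGad c σ k N F' π x i₀ where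
  mem := h.mem
  tail := h.tail
  low j hj hm := h.low j hj (hF hm)
  oth i hi hne j hj := ⟨fun hm => (h.oth i hi hne j hj).1 (hF hm), (h.oth i hi hne j hj).2⟩
  cong := h.cong
  share := h.share
  late := h.late

/-- Tails `π` such that for some set `F` of at most `L` labels there is no gadget with tail `π`
which avoids `F`. -/
def Bad (c : ℕ) (σ : Strat (lnet d M)) (k L : ℕ) (N : Finset (Fin n)) : Set (ℕ → Fin M) :=
  {π | ∃ F : Finset (Fin M), F.card ≤ L ∧ ¬ ∃ x i₀, IsGad c σ k N F π x i₀}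

/-- labels used by the packets of `S` -/
def lab (d : ℕ) {M n : ℕ} (S : Finset (Fin n)) (x : Fin n → ℕ → Fin M) : Finset (Fin M) :=
  S.biUnion fun i => (Finset.range d).image (x i)

theorem lab_card (S : Finset (Fin n)) (x : Fin n → ℕ → Fin M) : (lab d S x).card ≤ n * d := by
  refine le_trans (Finset.card_biUnion_le_card_mul _ _ d fun i _ => ?_) ?_
  · refine le_trans Finset.card_image_le ?_
    simp
  · exact Nat.mul_le_mul_right _ (by simpa using Finset.card_le_univ S)

theorem lab_congr {S : Finset (Fin n)} {x y : Fin n → ℕ → Fin M} (h : ∀ i ∈ S, x i = y i) :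
    lab d S x = lab d S y :=
  Finset.biUnion_congr rfl fun i hi => by rw [h i hi]

theorem mem_lab {S : Finset (Fin n)} {x : Fin n → ℕ → Fin M} {i : Fin n} (hi : i ∈ S) {j : ℕ}
    (hj : j < d) : x i j ∈ lab d S x :=
  Finset.mem_biUnion.2 ⟨i, hi, Finset.mem_image.2 ⟨j, Finset.mem_range.2 hj, rfl⟩⟩

/-- the packets in the groups before group `r` -/
def bef {J : ℕ} (Nr : Fin J → Finset (Fin n)) (r : Fin J) : Finset (Fin n) :=
  Finset.univ.filter fun i => ∃ r' < r, i ∈ Nr r'

theorem exists_seq {J : ℕ} (c : ℕ) (hM : 0 < M) (hn : 0 < n) (σ : Fin J → Strat (lnet d M))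
    (k : ℕ) (Nr : Fin J → Finset (Fin n)) (hdis : ∀ r r', r ≠ r' → Disjoint (Nr r) (Nr r'))
    (Fb : Finset (Fin M)) (L : ℕ) (hL : Fb.card + n * d ≤ L) (τ : Fin J → (ℕ → Fin M))
    (hτ : ∀ r, τ r ∉ Bad c (σ r) k L (Nr r)) :
    ∃ (x : Fin n → ℕ → Fin M) (f : Fin J → Fin n),
      ∀ r, IsGad c (σ r) k (Nr r) (Fb ∪ lab d (bef Nr r) x) (τ r) x (f r) := by
  have key : ∀ m ≤ J, ∃ (x : Fin n → ℕ → Fin M) (f : Fin J → Fin n),
      ∀ r : Fin J, r.val < m →
        IsGad c (σ r) k (Nr r) (Fb ∪ lab d (bef Nr r) x) (τ r) x (f r) := by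
    intro m
    induction m with
    | zero => exact fun _ => ⟨fun _ _ => ⟨0, hM⟩, fun _ => ⟨0, hn⟩, fun r hr => by omega⟩
    | succ m ih =>
      intro hm
      obtain ⟨x, f, hxf⟩ := ih (by omega)
      set r : Fin J := ⟨m, hm⟩ with hr
      have hb := hτ r
      simp only [Bad, Set.mem_ofPred_eq, not_exists, not_and, not_forall, not_not] at hb
      obtain ⟨y, i, hy⟩ := hb (Fb ∪ lab d (bef Nr r) x) (by
        refine le_trans (Finset.card_union_le _ _) ?_
        have := lab_card (d := d) (bef Nr r) x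
        omega)
      classical
      refine ⟨fun i => if i ∈ Nr r then y i else x i, Function.update f r i, fun r' hr' => ?_⟩
      -- the new labels agree with the old ones on the earlier groups
      have hold : ∀ r'' < r, ∀ i' ∈ Nr r'', (if i' ∈ Nr r then y i' else x i') = x i' := by
        intro r'' hlt i' hi'
        rw [if_neg]
        intro h
        exact Finset.disjoint_left.1 (hdis r'' r (ne_of_lt hlt)) hi' h
      have hbef : ∀ r'' ≤ r, lab d (bef Nr r'') (fun i => if i ∈ Nr r then y i else x i) =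
          lab d (bef Nr r'') x := by
        intro r'' hle
        refine lab_congr fun i' hi' => ?_
        obtain ⟨r3, h3, h4⟩ := (Finset.mem_filter.1 hi').2
        exact hold r3 (lt_of_lt_of_le h3 hle) i' h4
      rcases Nat.lt_or_ge r'.val m with hlt | hge
      · have hlt' : r' < r := hlt
        rw [hbef r' hlt'.le, Function.update_of_ne (ne_of_lt hlt')]
        exact (hxf r' hlt).congr fun i' hi' => (hold r' hlt' i' hi').symm
      · have hrr : r' = r := Fin.ext (by simp only [hr]; omega)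
        rw [hrr]
        rw [hbef r le_rfl, Function.update_self]
        exact hy.congr fun i' hi' => by rw [if_pos hi']
  obtain ⟨x, f, h⟩ := key J le_rfl
  exact ⟨x, f, fun r => h r r.isLt⟩

/-- **Composition.** -/
theorem compose {c : ℕ} (hc : 1 ≤ c) (hn : 0 < n) {k : ℕ} (hk : k < d) (σ : Strat (lnet d M))
    (Nr : Fin c → Finset (Fin n)) (hdis : ∀ r r', r ≠ r' → Disjoint (Nr r) (Nr r'))
    (a : Fin M) (π : Fin c → (ℕ → Fin M)) (Fw : Fin c → Finset (Fin M))
    (ha1 : ∀ r, a ∉ Fw r) (ha2 : ∀ r, a ∉ tl d (k + 1) (π r))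
    (hdj : ∀ r r', r ≠ r' → Disjoint (tl d (k + 1) (π r)) (tl d (k + 1) (π r')))
    (hind : ∀ r r', r ≠ r' → Disjoint (tl d (k + 1) (π r')) (Fw r))
    (Fb : Finset (Fin M)) (hF1 : a ∈ Fb) (hF2 : ∀ r, Fw r ⊆ Fb)
    (hF3 : ∀ r, tl d (k + 1) (π r) ⊆ Fb) (L : ℕ) (hL : Fb.card + n * d ≤ L)
    (hgood : ∀ r, Function.update (π r) k a ∉ Bad c σ k L (Nr r)) :
    ∃ r x i₀, IsGad c σ (k + 1) (Finset.univ.biUnion Nr) (Fw r) (π r) x i₀ := by
  classical
  obtain ⟨x, f, hxf⟩ := exists_seq c a.pos hn (fun _ => σ) k Nr hdis Fb L hL _ hgood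
  -- labels of the designated packets
  have hfk : ∀ r, x (f r) k = a := fun r => by
    rw [(hxf r).tail k le_rfl hk, Function.update_self]
  have hfj : ∀ r j, k < j → j < d → x (f r) j = π r j := fun r j h1 h2 => by
    rw [(hxf r).tail j h1.le h2, Function.update_of_ne (by omega)]
  have hfb : ∀ r j, k ≤ j → j < d → x (f r) j ∈ Fb := by
    intro r j h1 h2
    rcases Nat.eq_or_lt_of_le h1 with rfl | h
    · rw [hfk]; exact hF1
    · rw [hfj r j h h2]; exact hF3 r (mem_tl.2 ⟨j, h, h2, rfl⟩)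
  have hlow : ∀ r, ∀ j < k, x (f r) j ∉ Fb := fun r j hj h =>
    (hxf r).low j hj (Finset.mem_union_left _ h)
  have hoth : ∀ r, ∀ i ∈ Nr r, i ≠ f r → ∀ j < d, x i j ∉ Fb := fun r i hi hne j hj h =>
    ((hxf r).oth i hi hne j hj).1 (Finset.mem_union_left _ h)
  -- separation of the groups
  have hsep : ∀ r r', r' < r → ∀ i ∈ Nr r, ∀ i' ∈ Nr r', ∀ j < d, ∀ j' < d,
      (i ≠ f r ∨ j < k) → x i j ≠ x i' j' := by
    intro r r' hlt i hi i' hi' j hj j' hj' hor heq
    have hm : x i j ∈ lab d (bef Nr r) x := by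
      rw [heq]
      exact mem_lab (Finset.mem_filter.2 ⟨Finset.mem_univ _, r', hlt, hi'⟩) hj'
    by_cases h : i = f r
    · subst h
      rcases hor with h | h
      · exact h rfl
      · exact (hxf r).low j h (Finset.mem_union_right _ hm)
    · exact ((hxf r).oth i hi h j hj).1 (Finset.mem_union_right _ hm)
  have hsep2 : ∀ r r', r ≠ r' → ∀ i ∈ Nr r, ∀ i' ∈ Nr r', ∀ j < k, x i j ≠ x i' j := by
    intro r r' hne i hi i' hi' j hj
    rcases lt_or_gt_of_ne hne with h | h
    · exact (hsep r' r h i' hi' i hi j (by omega) j (by omega) (Or.inr hj)).symm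
    · exact hsep r r' h i hi i' hi' j (by omega) j (by omega) (Or.inr hj)
  have hfmem : ∀ r, f r ∈ Nr r := fun r => (hxf r).mem
  have hfinj : Function.Injective f := by
    intro r r' h
    by_contra hne
    exact Finset.disjoint_left.1 (hdis r r' hne) (hfmem r) (h ▸ hfmem r')
  set N := Finset.univ.biUnion Nr with hN
  have hsub : ∀ r, Nr r ⊆ N := fun r => Finset.subset_biUnion_of_mem Nr (Finset.mem_univ r)
  -- all designated packets are late
  have hlate : ∀ r, (run σ (lcoll d N x) (k * (c + 1))).pos (f r) ≤ 2 * k := by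
    intro r
    rcases Nat.eq_zero_or_pos k with rfl | hk0
    · rw [Nat.zero_mul]; exact (pos_zero σ _ _).le
    · have h1 := late_of_subset σ (hsub r) x k hk.le (fun i hi i' hi' hn' j hj => by
        obtain ⟨r', -, hr'⟩ := Finset.mem_biUnion.1 hi'
        have : r ≠ r' := fun h => hn' (h ▸ hr')
        exact hsep2 r r' this i hi i' hr' j hj) (k * (c + 1) - 2) (f r) (hfmem r) hk0
        (hxf r).late
      have h2 := pos_add_le σ (lcoll d N x) (k * (c + 1) - 2) 2 (f r)
      have h3 : 2 ≤ k * (c + 1) := by nlinarith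
      rw [Nat.sub_add_cancel h3] at h2
      omega
  -- one of them loses
  obtain ⟨r, hr⟩ := pigeon σ (lcoll d N x) c hc f hfinj (2 * k)
    (⟨2 * k, by omega⟩, a, a) (fun r => by
      rw [lcoll_path_of_mem (hsub r (hfmem r)), lpath_get _ _ (by omega)]
      have e1 : 2 * k / 2 = k := by omega
      have e2 : (2 * k + 1) / 2 = k := by omega
      rw [e1, e2, hfk]) (k * (c + 1)) hlate
  refine ⟨r, x, f r, ?_⟩
  refine ⟨hsub r (hfmem r), fun j h1 h2 => hfj r j (by omega) h2, ?_, ?_, ?_, ?_, ?_⟩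
  · intro j hj
    rcases Nat.lt_or_ge j k with h | h
    · exact fun hm => hlow r j h (hF2 r hm)
    · obtain rfl : j = k := by omega
      rw [hfk]; exact ha1 r
  · intro i hi hne j hj
    obtain ⟨r', -, hr'⟩ := Finset.mem_biUnion.1 hi
    by_cases h : i = f r'
    · subst h
      have hrr : r' ≠ r := fun h => hne (h ▸ rfl)
      rcases Nat.lt_trichotomy j k with h | h | h
      · exact ⟨fun hm => hlow r' j h (hF2 r hm), fun hm => hlow r' j h (hF3 r hm)⟩
      · subst h
        rw [hfk]; exact ⟨ha1 r, ha2 r⟩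
      · rw [hfj r' j h hj]
        have hm : π r' j ∈ tl d (k + 1) (π r') := mem_tl.2 ⟨j, h, hj, rfl⟩
        exact ⟨fun hm' => Finset.disjoint_left.1 (hind r r' hrr.symm) hm hm',
          fun hm' => Finset.disjoint_left.1 (hdj r' r hrr) hm hm'⟩
    · exact ⟨fun hm => hoth r' i hr' h j hj (hF2 r hm),
        fun hm => hoth r' i hr' h j hj (hF3 r hm)⟩
  · -- congestion
    intro j hj b
    by_cases hall : ∀ i ∈ N, x i j = b → ∃ r, i = f r
    · -- only designated packets
      calc (N.filter fun i => x i j = b).card ≤ (Finset.univ.image f).card := by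
            refine Finset.card_le_card fun i hi => ?_
            obtain ⟨r, rfl⟩ := hall i (Finset.mem_filter.1 hi).1 (Finset.mem_filter.1 hi).2
            exact Finset.mem_image_of_mem _ (Finset.mem_univ _)
        _ ≤ c := by
            refine le_trans Finset.card_image_le ?_
            simp
    · push Not at hall
      obtain ⟨i, hi, hib, hine⟩ := hall
      obtain ⟨r₁, -, hr₁⟩ := Finset.mem_biUnion.1 hi
      -- all packets with this label are in the group `r₁`
      have hbF : b ∉ Fb := hib ▸ hoth r₁ i hr₁ (hine r₁) j hj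
      have hone : ∀ i' ∈ N, x i' j = b → i' ∈ Nr r₁ := by
        intro i' hi' hb'
        obtain ⟨r₂, -, hr₂⟩ := Finset.mem_biUnion.1 hi'
        by_contra hnot
        have hne : r₁ ≠ r₂ := fun h => hnot (h ▸ hr₂)
        have hor : i' ≠ f r₂ ∨ j < k := by
          by_cases h : i' = f r₂
          · right
            by_contra hjk
            exact hbF (hb' ▸ h ▸ hfb r₂ j (by omega) hj)
          · left; exact h
        rcases lt_or_gt_of_ne hne with h | h
        · exact hsep r₂ r₁ h i' hr₂ i hr₁ j hj j hj hor (hb'.trans hib.symm)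
        · exact hsep r₁ r₂ h i hr₁ i' hr₂ j hj j hj (Or.inl (hine r₁)) (hib.trans hb'.symm)
      refine le_trans (Finset.card_le_card fun i' hi' => ?_) ((hxf r₁).cong j hj b)
      rw [Finset.mem_filter] at hi' ⊢
      exact ⟨hone i' hi'.1 hi'.2, hi'.2⟩
  · -- two packets share at most one label
    have hall : ∀ r₁ r₂, r₂ < r₁ → ∀ i ∈ Nr r₁, ∀ i' ∈ Nr r₂, ∀ j < d, x i j = x i' j →
        j = k := by
      intro r₁ r₂ hlt i hi i' hi' j hj heq
      by_contra hjk
      by_cases h : i = f r₁ ∧ k ≤ j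
      · obtain ⟨rfl, hkj⟩ := h
        by_cases h' : i' = f r₂
        · subst h'
          rw [hfj r₁ j (by omega) hj, hfj r₂ j (by omega) hj] at heq
          have hm₁ : π r₁ j ∈ tl d (k + 1) (π r₁) := mem_tl.2 ⟨j, by omega, hj, rfl⟩
          have hm₂ : π r₂ j ∈ tl d (k + 1) (π r₂) := mem_tl.2 ⟨j, by omega, hj, rfl⟩
          exact Finset.disjoint_left.1 (hdj r₁ r₂ (ne_of_gt hlt)) hm₁ (heq ▸ hm₂)
        · exact hoth r₂ i' hi' h' j hj (heq ▸ hfb r₁ j hkj hj)
      · refine hsep r₁ r₂ hlt i hi i' hi' j hj j hj ?_ heq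
        by_cases h' : i = f r₁
        · right
          by_contra h''
          exact h ⟨h', by omega⟩
        · left; exact h'
    intro i hi i' hi' hne j hj j' hj' h1 h2
    obtain ⟨r₁, -, hr₁⟩ := Finset.mem_biUnion.1 hi
    obtain ⟨r₂, -, hr₂⟩ := Finset.mem_biUnion.1 hi'
    by_cases h : r₁ = r₂
    · subst h
      exact (hxf r₁).share i hr₁ i' hr₂ hne j hj j' hj' h1 h2
    · rcases lt_or_gt_of_ne h with h | h
      · rw [hall r₂ r₁ h i' hr₂ i hr₁ j hj h1.symm, hall r₂ r₁ h i' hr₂ i hr₁ j' hj' h2.symm]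
      · rw [hall r₁ r₂ h i hr₁ i' hr₂ j hj h1, hall r₁ r₂ h i hr₁ i' hr₂ j' hj' h2]
  · have e1 : (k + 1) * (c + 1) - 2 = k * (c + 1) + (c - 1) := by
      have : (k + 1) * (c + 1) = k * (c + 1) + (c + 1) := by ring
      omega
    rw [e1]
    omega

end Pool.Agent.Det0225
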