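import Pool.Agent.Lib_MP_0225c1_det.Sim

/-!
# MP_0225c1_lc: the greedy bound

If every edge always forwards a waiting packet, then every packet arrives within the sum of the
congestions of the edges of its path.
-/

open MeasureTheory

namespace Pool.Agent.Det0225

open Pool.Agent.PR0225 (Net Coll Info info present hist Crosses cong)

open Classical in
/-- the smallest name of a packet in `S` which waits for the edge `e` -/
noncomputable def minFwd (E : Type) (_t : ℕ) (S : Set (Info E Unit)) (e : E) : Option ℕ :=
  if h : ∃ k, ∃ x ∈ S, x.next = some e ∧ x.id = k then some (Nat.find h) else none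

/-- every edge forwards the waiting packet with the smallest name -/
noncomputable def minName : Pool.Agent.PR0225.Strategy where
  Seed := Unit
  mS := ⊤
  law := @Measure.dirac Unit ⊤ ()
  prob := @Measure.dirac.isProbabilityMeasure Unit ⊤ ()
  fwd := minFwd

variable {G : Net} {n : ℕ}

/-- the seeds: nothing -/
def noSeed (n : ℕ) : Fin n → minName.Seed := fun _ => ()

/-- number of crossed edges -/
noncomputable def len (C : Coll G n) (t : ℕ) (i : Fin n) : ℕ :=
  (hist C minName (noSeed n) t i).length

/-- crossing for the strategy `minName` -/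
def Cr (C : Coll G n) (t : ℕ) (i : Fin n) (e : G.E) : Prop :=
  Crosses C minName (noSeed n) (hist C minName (noSeed n) t) t i e

theorem len_zero (C : Coll G n) (i : Fin n) : len C 0 i = 0 := rfl

theorem len_succ_of_cr {C : Coll G n} {t : ℕ} {i : Fin n} {e : G.E} (h : Cr C t i e) :
    len C (t + 1) i = len C t i + 1 := by
  unfold len
  simp only [hist]
  rw [if_pos ⟨e, h⟩, List.length_append, List.length_singleton]

theorem len_succ_of_not {C : Coll G n} {t : ℕ} {i : Fin n} (h : ¬ ∃ e, Cr C t i e) :
    len C (t + 1) i = len C t i := by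
  have h' : ¬ ∃ e, Crosses C minName (noSeed n) (hist C minName (noSeed n) t) t i e := h
  unfold len
  simp only [hist]
  rw [if_neg h']

theorem len_le_succ (C : Coll G n) (t : ℕ) (i : Fin n) : len C t i ≤ len C (t + 1) i := by
  by_cases h : ∃ e, Cr C t i e
  · obtain ⟨e, he⟩ := h
    rw [len_succ_of_cr he]
    omega
  · rw [len_succ_of_not h]

theorem len_mono (C : Coll G n) (i : Fin n) : Monotone fun t => len C t i :=
  monotone_nat_of_le_succ fun t => len_le_succ C t i

theorem cr_get {C : Coll G n} {t : ℕ} {i : Fin n} {e : G.E} (h : Cr C t i e) :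
    (C.path i)[len C t i]? = some e := h.1

theorem len_le (C : Coll G n) (t : ℕ) (i : Fin n) : len C t i ≤ (C.path i).length := by
  induction t with
  | zero => rw [len_zero]; exact Nat.zero_le _
  | succ t ih =>
    by_cases h : ∃ e, Cr C t i e
    · obtain ⟨e, he⟩ := h
      rw [len_succ_of_cr he]
      obtain ⟨h1, -⟩ := List.getElem?_eq_some_iff.1 (cr_get he)
      exact h1
    · rw [len_succ_of_not h]
      exact ih

/-- if a packet waits for `e`, then some packet crosses `e` -/
theorem exists_cr {C : Coll G n} {t : ℕ} {i : Fin n} {e : G.E}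
    (h : (C.path i)[len C t i]? = some e) : ∃ j, Cr C t j e := by
  classical
  let S : Set (Info G.E Unit) :=
    present C (noSeed n) (hist C minName (noSeed n) t) (G.src e)
  have hex : ∃ k, ∃ x ∈ S, x.next = some e ∧ x.id = k :=
    ⟨i.val, info C (noSeed n) (hist C minName (noSeed n) t) i, ⟨i, rfl, e, h, rfl⟩, h, rfl⟩
  have hfwd : minFwd G.E t S e = some (Nat.find hex) := by
    unfold minFwd
    rw [dif_pos hex]
  obtain ⟨x, hxS, hnext, hid⟩ := Nat.find_spec hex
  obtain ⟨j, hj, -⟩ := hxS
  refine ⟨j, ?_, ?_⟩
  · rw [hj] at hnext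
    exact hnext
  · show minFwd G.E t S e = some j.val
    rw [hfwd, ← hid, hj]
    rfl

/-- a packet crosses an edge only once -/
theorem cr_once {C : Coll G n} {t t' : ℕ} {j : Fin n} {e : G.E} (h : Cr C t j e)
    (h' : Cr C t' j e) : t = t' := by
  have key : ∀ s s', s < s' → Cr C s j e → Cr C s' j e → False := by
    intro s s' hss hs hs'
    have h1 : len C s j + 1 ≤ len C s' j := by
      rw [← len_succ_of_cr hs]
      exact len_mono C j hss
    obtain ⟨a1, a2⟩ := List.getElem?_eq_some_iff.1 (cr_get hs)
    obtain ⟨b1, b2⟩ := List.getElem?_eq_some_iff.1 (cr_get hs')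
    have := (List.Nodup.getElem_inj_iff (C.nodup j) (hi := a1) (hj := b1)).1 (a2.trans b2.symm)
    omega
  rcases Nat.lt_trichotomy t t' with hlt | heq | hgt
  · exact (key t t' hlt h h').elim
  · exact heq
  · exact (key t' t hgt h' h).elim

/-- a packet crosses its next edge within `cong` steps -/
theorem cross_within (C : Coll G n) (i : Fin n) (k s : ℕ) (e : G.E)
    (he : (C.path i)[k]? = some e) (hk : k ≤ len C s i) :
    k + 1 ≤ len C (s + cong C.path e) i := by
  classical
  by_contra hcon
  have hconst : ∀ t, s ≤ t → t ≤ s + cong C.path e → len C t i = k := by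
    intro t h1 h2
    have h3 := len_mono C i h1
    have h4 := len_mono C i h2
    simp only at h3 h4
    omega
  have hcr : ∀ t, s ≤ t → t < s + cong C.path e → ∃ j, Cr C t j e := by
    intro t h1 h2
    apply exists_cr (i := i)
    rw [hconst t h1 h2.le]
    exact he
  have hne : ∀ t j, s ≤ t → t < s + cong C.path e → Cr C t j e → j ≠ i := by
    rintro t j h1 h2 h3 rfl
    have h4 := len_succ_of_cr h3
    rw [hconst t h1 h2.le, hconst (t + 1) (by omega) (by omega)] at h4
    omega
  have : Nonempty (Fin n) := ⟨i⟩
  choose! f hf using hcr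
  set U : Finset (Fin n) := Finset.univ.filter fun j => e ∈ C.path j with hU
  have hcong : cong C.path e = U.card := by
    unfold cong
    rw [hU]
  have hmem : e ∈ C.path i := List.mem_of_getElem? he
  have hsub : (Finset.Ico s (s + cong C.path e)).image f ⊆ U.erase i := by
    intro j hj
    obtain ⟨t, ht, rfl⟩ := Finset.mem_image.1 hj
    rw [Finset.mem_Ico] at ht
    have h1 := hf t ht.1 ht.2
    refine Finset.mem_erase.2 ⟨hne t _ ht.1 ht.2 h1, ?_⟩
    rw [hU, Finset.mem_filter]
    exact ⟨Finset.mem_univ _, List.mem_of_getElem? (cr_get h1)⟩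
  have hinj : Set.InjOn f (Finset.Ico s (s + cong C.path e) : Set ℕ) := by
    intro t ht t' ht' heq
    rw [Finset.coe_Ico, Set.mem_Ico] at ht ht'
    have h1 := hf t ht.1 ht.2
    have h2 := hf t' ht'.1 ht'.2
    rw [← heq] at h2
    exact cr_once h1 h2
  have hcard := Finset.card_le_card hsub
  rw [Finset.card_image_of_injOn hinj, Nat.card_Ico, Finset.card_erase_of_mem
    (by rw [hU, Finset.mem_filter]; exact ⟨Finset.mem_univ _, hmem⟩), ← hcong] at hcard
  have hpos : 0 < cong C.path e := by
    rw [hcong]
    exact Finset.card_pos.2 ⟨i, by rw [hU, Finset.mem_filter]; exact ⟨Finset.mem_univ _, hmem⟩⟩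
  omega

theorem len_ge (C : Coll G n) (i : Fin n) (k : ℕ) (hk : k ≤ (C.path i).length) :
    k ≤ len C ((((C.path i).take k).map (cong C.path)).sum) i := by
  induction k with
  | zero => exact Nat.zero_le _
  | succ k ih =>
    have hlt : k < (C.path i).length := hk
    have hget : (C.path i)[k]? = some ((C.path i)[k]) := List.getElem?_eq_getElem hlt
    have h1 := cross_within C i k _ _ hget (ih hlt.le)
    rw [List.take_add_one, hget, Option.toList_some, List.map_append, List.sum_append,
      List.map_singleton, List.sum_singleton]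
    exact h1

/-- **Greedy bound.** There is a deterministic strategy for which every packet of every collection
arrives within the sum of the congestions of the edges of its path. -/
theorem greedy_upper (G : Net) (n : ℕ) : ∃ τ : Strat G, ∀ (C : Coll G n) (i : Fin n),
    Arrived τ C (((C.path i).map (cong C.path)).sum) i := by
  obtain ⟨τ, hτ⟩ := exists_sim (G := G) minName (noSeed n)
  refine ⟨τ, fun C i => ?_⟩
  unfold Arrived
  rw [hτ]
  have h1 := len_ge C i (C.path i).length le_rfl
  rw [List.take_length] at h1
  exact le_antisymm (len_le C _ i) h1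

end Pool.Agent.Det0225
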