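import Pool.Agent.Lib_MP_0225c1_det.Model

/-!
# MP_0225c1_lc, deterministic strategies: the leveled network

`lnet d M` has the levels `0, ..., 2 d - 1`, each with `M` nodes, and all edges from each level to
the next one. A packet with the labels `x 0, ..., x (d - 1)` has the path through the nodes
`(0, x 0), (1, x 0), (2, x 1), (3, x 1), ...`.
-/

namespace Pool.Agent.Det0225

open Pool.Agent.PR0225 (Net Coll cong)

/-- The complete leveled network with the levels `0, ..., 2 d - 1`, each with `M` nodes. The edge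
`(l, a, b)` leads from the node `(l, a)` to the node `(l + 1, b)`. -/
abbrev lnet (d M : ℕ) : Net where
  V := Fin (2 * d) × Fin M
  E := Fin (2 * d - 1) × Fin M × Fin M
  src e := (⟨e.1.val, by have := e.1.isLt; omega⟩, e.2.1)
  tgt e := (⟨e.1.val + 1, by have := e.1.isLt; omega⟩, e.2.2)

/-- the path of a packet with the labels `x 0, ..., x (d - 1)` -/
def lpath (d : ℕ) {M : ℕ} (x : ℕ → Fin M) : List (lnet d M).E :=
  List.ofFn fun l : Fin (2 * d - 1) => (l, x (l.val / 2), x ((l.val + 1) / 2))

variable {d M n : ℕ}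

theorem lpath_length (x : ℕ → Fin M) : (lpath d x).length = 2 * d - 1 := by
  simp [lpath]

theorem lpath_get (x : ℕ → Fin M) (k : ℕ) (hk : k < 2 * d - 1) :
    (lpath d x)[k]? = some ((⟨k, hk⟩, x (k / 2), x ((k + 1) / 2)) : (lnet d M).E) := by
  rw [List.getElem?_eq_getElem (by rw [lpath_length]; exact hk)]
  simp [lpath]

theorem mem_lpath {x : ℕ → Fin M} {e : (lnet d M).E} :
    e ∈ lpath d x ↔ ∃ l : Fin (2 * d - 1), e = (l, x (l.val / 2), x ((l.val + 1) / 2)) := by
  simp only [lpath, List.mem_ofFn]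
  exact ⟨fun ⟨l, h⟩ => ⟨l, h.symm⟩, fun ⟨l, h⟩ => ⟨l, h.symm⟩⟩

open Classical in
/-- the collection in which the packets of `N` have the labels `x`, all others are absent -/
noncomputable def lcoll (d : ℕ) {M n : ℕ} (N : Finset (Fin n)) (x : Fin n → ℕ → Fin M) :
    Coll (lnet d M) n where
  path i := if i ∈ N then lpath d (x i) else []
  chain i := by
    split
    · rw [List.isChain_iff_getElem]
      intro k hk
      simp only [lpath, List.getElem_ofFn, lnet]
    · exact List.IsChain.nil
  nodup i := by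
    split
    · refine List.nodup_ofFn.2 fun l l' h => ?_
      exact (Prod.mk.injEq _ _ _ _ ▸ h).1
    · exact List.nodup_nil

theorem lcoll_path_of_mem {N : Finset (Fin n)} {x : Fin n → ℕ → Fin M} {i : Fin n}
    (hi : i ∈ N) : (lcoll d N x).path i = lpath d (x i) := by
  simp [lcoll, hi]

theorem lcoll_path_of_notMem {N : Finset (Fin n)} {x : Fin n → ℕ → Fin M} {i : Fin n}
    (hi : i ∉ N) : (lcoll d N x).path i = [] := by
  simp [lcoll, hi]

theorem lcoll_congr {N : Finset (Fin n)} {x y : Fin n → ℕ → Fin M} (h : ∀ i ∈ N, x i = y i) :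
    lcoll d N x = lcoll d N y := by
  have : (lcoll d N x).path = (lcoll d N y).path := by
    funext i
    by_cases hi : i ∈ N
    · rw [lcoll_path_of_mem hi, lcoll_path_of_mem hi, h i hi]
    · rw [lcoll_path_of_notMem hi, lcoll_path_of_notMem hi]
  cases hx : lcoll d N x
  cases hy : lcoll d N y
  rw [hx, hy] at this
  cases this
  rfl

/-- the first edges of a group `N` of packets whose labels below level `k` are used by nobody
else: the delays of these packets there do not depend on the other packets -/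
theorem late_of_subset (σ : Strat (lnet d M)) {N N' : Finset (Fin n)} (hN : N ⊆ N')
    (x : Fin n → ℕ → Fin M) (k : ℕ) (hk : k ≤ d)
    (hsep : ∀ i ∈ N, ∀ i' ∈ N', i' ∉ N → ∀ j < k, x i j ≠ x i' j) (t : ℕ) (i : Fin n)
    (hi : i ∈ N) (hk0 : 0 < k)
    (hlate : (run σ (lcoll d N x) t).pos i ≤ 2 * k - 2) :
    (run σ (lcoll d N' x) t).pos i ≤ 2 * k - 2 := by
  set Z : Set (lnet d M).V := {v | ∃ i ∈ N, v.1.val + 2 ≤ 2 * k ∧ v.2 = x i (v.1.val / 2)} with hZ
  have h := (locality σ (lcoll d N x) (lcoll d N' x) (N : Set (Fin n)) Z ?_ ?_ ?_ ?_ t).2 i hi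
    (2 * k - 2) (⟨2 * k - 2, by omega⟩, x i ((2 * k - 2) / 2), x i ((2 * k - 2 + 1) / 2)) ?_ ?_
  · omega
  · intro i hi
    rw [lcoll_path_of_mem hi, lcoll_path_of_mem (hN hi)]
  · intro i hi e he
    rw [lcoll_path_of_notMem hi] at he
    simp at he
  · intro i hi e he
    have hi' : i ∈ N' := by
      by_contra h
      rw [lcoll_path_of_notMem h] at he
      simp at he
    rw [lcoll_path_of_mem hi'] at he
    obtain ⟨l, rfl⟩ := mem_lpath.1 he
    constructor
    · rintro ⟨i', hi'', h1, h2⟩
      exact hsep i' hi'' i hi' hi (l.val / 2) (by simp only at h1; omega) h2.symm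
    · rintro ⟨i', hi'', h1, h2⟩
      exact hsep i' hi'' i hi' hi ((l.val + 1) / 2) (by simp only at h1; omega) h2.symm
  · intro i hi e he
    rw [lcoll_path_of_mem hi] at he
    obtain ⟨l, rfl⟩ := mem_lpath.1 he
    rintro ⟨i', hi', h1, h2⟩
    exact ⟨i, hi, by simp only at h1 ⊢; omega, rfl⟩
  · rw [lcoll_path_of_mem hi, lpath_get _ _ (by omega)]
  · exact ⟨i, hi, by simp only; omega, rfl⟩

end Pool.Agent.Det0225
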