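import Pool.Agent.Lib_MP_0225c1_det.Gadget

/-!
# MP_0225c1_lc, deterministic strategies: the bad tails are thin, and the main theorem
-/

namespace Pool.Agent.Det0225

open Pool.Agent.PR0225 (Net Coll cong)

variable {d M n : ℕ}

theorem exists_partition {J m : ℕ} (N : Finset (Fin n)) (hN' : N.card = J * m) :
    ∃ Nr : Fin J → Finset (Fin n), (∀ r r', r ≠ r' → Disjoint (Nr r) (Nr r')) ∧
      (∀ r, (Nr r).card = m) ∧ Finset.univ.biUnion Nr = N := by
  classical
  let e := N.equivFinOfCardEq hN'
  let g : Fin J × Fin m → Fin n := fun p => (e.symm (finProdFinEquiv p)).val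
  have hg : Function.Injective g :=
    Subtype.val_injective.comp (e.symm.injective.comp finProdFinEquiv.injective)
  refine ⟨fun r => Finset.univ.image fun s => g (r, s), ?_, ?_, ?_⟩
  · intro r r' hne
    rw [Finset.disjoint_left]
    intro i hi hi'
    obtain ⟨s, -, hs⟩ := Finset.mem_image.1 hi
    obtain ⟨s', -, hs'⟩ := Finset.mem_image.1 hi'
    have := hg (hs.trans hs'.symm)
    exact hne (Prod.mk.inj this).1
  · intro r
    rw [Finset.card_image_of_injective _ (fun s s' h => (Prod.mk.inj (hg h)).2)]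
    simp
  · ext i
    constructor
    · intro hi
      obtain ⟨r, -, hr⟩ := Finset.mem_biUnion.1 hi
      obtain ⟨s, -, rfl⟩ := Finset.mem_image.1 hr
      exact (e.symm (finProdFinEquiv (r, s))).2
    · intro hi
      obtain ⟨p, hp⟩ := (finProdFinEquiv (m := J) (n := m)).surjective (e ⟨i, hi⟩)
      refine Finset.mem_biUnion.2 ⟨p.1, Finset.mem_univ _, Finset.mem_image.2
        ⟨p.2, Finset.mem_univ _, ?_⟩⟩
      change (e.symm (finProdFinEquiv (p.1, p.2))).val = i
      rw [Prod.mk.eta, hp, Equiv.symm_apply_apply]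

theorem Thin.mono {d k R R' : ℕ} {B B' : Set (ℕ → Fin M)} (h : Thin d k R B) (hR : R ≤ R')
    (hB : B' ⊆ B) : Thin d k R' B' := by
  rintro ⟨π, h1, h2⟩
  exact h ⟨fun s => π (Fin.castLE hR s), fun s => hB (h1 _), fun s s' hne => h2 _ _ fun he =>
    hne (Fin.castLE_injective hR he)⟩

/-- the numbers of forbidden labels; `Lr c d n j` is used for the gadgets of height `d - j` -/
def Lr (c d n : ℕ) : ℕ → ℕ
  | 0 => n * d
  | j + 1 => 1 + c * (Lr c d n j + d) + n * d

/-- the thinness parameters -/
def Rf (c d Λ : ℕ) : ℕ → ℕ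
  | 0 => 1
  | k + 1 => c * (Rf c d Λ k * (d + 1) + 1) + (2 * Λ + 1) * c

/-- a sufficient number of labels -/
def Mst (c d n : ℕ) : ℕ :=
  c * Rf c d (Lr c d n d) d + Rf c d (Lr c d n d) d * (Lr c d n d + d) + n * d + n + 1

theorem Lr_mono {c : ℕ} (hc : 1 ≤ c) (d n : ℕ) : Monotone (Lr c d n) := by
  refine monotone_nat_of_le_succ fun j => ?_
  have : Lr c d n (j + 1) = 1 + c * (Lr c d n j + d) + n * d := rfl
  rw [this]
  nlinarith [Nat.zero_le (Lr c d n j), Nat.zero_le (c * d), Nat.zero_le (n * d)]

theorem Rf_mono {c : ℕ} (hc : 1 ≤ c) (d Λ : ℕ) : Monotone (Rf c d Λ) := by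
  refine monotone_nat_of_le_succ fun k => ?_
  have : Rf c d Λ (k + 1) = c * (Rf c d Λ k * (d + 1) + 1) + (2 * Λ + 1) * c := rfl
  rw [this]
  have h1 : 1 * (Rf c d Λ k * (d + 1) + 1) ≤ c * (Rf c d Λ k * (d + 1) + 1) :=
    Nat.mul_le_mul_right _ hc
  have h2 : Rf c d Λ k * 1 ≤ Rf c d Λ k * (d + 1) := Nat.mul_le_mul_left _ (by omega)
  omega

/-- **Claim.** The bad tails are thin. -/
theorem thin_bad (c d n : ℕ) (hc : 1 ≤ c) (hn : 0 < n) (hM : Mst c d n ≤ M)
    (σ : Strat (lnet d M)) (k : ℕ) (hkd : k ≤ d) (N : Finset (Fin n)) (hN : N.card = c ^ k) :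
    Thin d k (Rf c d (Lr c d n d) k) (Bad c σ k (Lr c d n (d - k)) N) := by
  classical
  induction k generalizing N with
  | zero =>
    change Thin d 0 1 _
    rintro ⟨π, hB, -⟩
    obtain ⟨F, -, hF⟩ := hB 0
    rw [pow_zero, Finset.card_eq_one] at hN
    obtain ⟨i, rfl⟩ := hN
    refine hF ⟨fun _ => π 0, i, Finset.mem_singleton_self i, fun j _ _ => rfl, fun j hj => ?_,
      fun i' hi' hne => absurd (Finset.mem_singleton.1 hi') hne, fun j _ a => ?_,
      fun i₁ h₁ i₂ h₂ hne => absurd
        ((Finset.mem_singleton.1 h₁).trans (Finset.mem_singleton.1 h₂).symm) hne, ?_⟩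
    · omega
    · refine le_trans (Finset.card_filter_le _ _) ?_
      simpa using hc
    · rw [Nat.zero_mul]; exact (pos_zero σ _ _).le
  | succ k ih =>
    have hk : k < d := by omega
    set Λ := Lr c d n d with hΛ
    set L := Lr c d n (d - (k + 1)) with hL
    have hLΛ : L ≤ Λ := Lr_mono hc d n (by omega)
    set L' := Lr c d n (d - k) with hL'
    have hLL' : L' = 1 + c * (L + d) + n * d := by
      have : d - k = (d - (k + 1)) + 1 := by omega
      rw [hL', this]; rfl
    set R := Rf c d Λ k with hR
    set R' := R * (d + 1) + 1 with hR'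
    set R2 := Rf c d Λ (k + 1) with hR2
    have hR2e : R2 = c * R' + (2 * Λ + 1) * c := rfl
    have hRd : R ≤ Rf c d Λ d := Rf_mono hc d Λ hk.le
    have hR2d : R2 ≤ Rf c d Λ d := Rf_mono hc d Λ hkd
    rintro ⟨π, hB, hdj⟩
    obtain ⟨Nr, hdis, hcard, rfl⟩ := exists_partition (J := c) (m := c ^ k) N
      (by rw [hN, pow_succ]; ring)
    have hth : ∀ r, Thin d k R (Bad c σ k L' (Nr r)) := fun r =>
      ih hk.le (Nr r) (hcard r)
    choose Fw hFw hFw2 using hB
    -- the label `a`
    set A : Fin c → Finset (Fin M) := fun r => Finset.univ.filter fun a : Fin M =>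
      ¬ Thin d (k + 1) R' {π | Function.update π k a ∈ Bad c σ k L' (Nr r)} with hA
    have hAc : ∀ r, (A r).card ≤ R := fun r => ((hth r).slices hk).le
    have hX : ((Finset.univ.biUnion A) ∪
        Finset.univ.biUnion fun s => Fw s ∪ tl d (k + 1) (π s)).card <
        (Finset.univ : Finset (Fin M)).card := by
      rw [Finset.card_univ, Fintype.card_fin]
      calc _ ≤ (Finset.univ.biUnion A).card +
            (Finset.univ.biUnion fun s => Fw s ∪ tl d (k + 1) (π s)).card :=
              Finset.card_union_le _ _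
        _ ≤ c * R + R2 * (L + d) := by
            refine Nat.add_le_add ?_ ?_
            · refine le_trans (Finset.card_biUnion_le_card_mul _ _ R fun r _ => hAc r) ?_
              simp
            · refine le_trans (Finset.card_biUnion_le_card_mul _ _ (L + d) fun s _ =>
                le_trans (Finset.card_union_le _ _) (Nat.add_le_add (hFw s) (tl_card_le _ _ _))) ?_
              simp
        _ < M := by
            have h1 : c * R ≤ c * Rf c d Λ d := Nat.mul_le_mul_left _ hRd
            have h2 : R2 * (L + d) ≤ Rf c d Λ d * (Λ + d) :=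
              Nat.mul_le_mul hR2d (by omega)
            have h3 : Mst c d n = c * Rf c d Λ d + Rf c d Λ d * (Λ + d) + n * d + n + 1 := rfl
            omega
    obtain ⟨a, -, ha⟩ := Finset.exists_mem_notMem_of_card_lt_card hX
    rw [Finset.mem_union, not_or] at ha
    obtain ⟨haA, haF⟩ := ha
    have haT : ∀ r, Thin d (k + 1) R' {π | Function.update π k a ∈ Bad c σ k L' (Nr r)} := by
      intro r
      by_contra hcon
      exact haA (Finset.mem_biUnion.2 ⟨r, Finset.mem_univ _,
        Finset.mem_filter.2 ⟨Finset.mem_univ _, hcon⟩⟩)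
    have haW : ∀ s, a ∉ Fw s := fun s h => haF (Finset.mem_biUnion.2
      ⟨s, Finset.mem_univ _, Finset.mem_union_left _ h⟩)
    have hat : ∀ s, a ∉ tl d (k + 1) (π s) := fun s h => haF (Finset.mem_biUnion.2
      ⟨s, Finset.mem_univ _, Finset.mem_union_right _ h⟩)
    -- the good tails
    set S := Finset.univ.filter fun s =>
      ∀ r, Function.update (π s) k a ∉ Bad c σ k L' (Nr r) with hS
    have hSc : (2 * L + 1) * c ≤ S.card := by
      have h1 : (Finset.univ : Finset (Fin R2)).card ≤ S.card + (Finset.univ.biUnion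
          fun r => Finset.univ.filter fun s =>
            Function.update (π s) k a ∈ Bad c σ k L' (Nr r)).card := by
        refine le_trans (Finset.card_le_card fun s _ => ?_) (Finset.card_union_le _ _)
        by_cases h : ∀ r, Function.update (π s) k a ∉ Bad c σ k L' (Nr r)
        · exact Finset.mem_union_left _ (Finset.mem_filter.2 ⟨Finset.mem_univ _, h⟩)
        · push Not at h
          obtain ⟨r, hr⟩ := h
          exact Finset.mem_union_right _ (Finset.mem_biUnion.2 ⟨r, Finset.mem_univ _,
            Finset.mem_filter.2 ⟨Finset.mem_univ _, hr⟩⟩)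
      have h2 : (Finset.univ.biUnion fun r => Finset.univ.filter fun s =>
            Function.update (π s) k a ∈ Bad c σ k L' (Nr r)).card ≤ c * R' := by
        refine le_trans (Finset.card_biUnion_le_card_mul _ _ R' fun r _ => ?_) ?_
        · refine ((haT r).card_lt _ π (fun s hs => (Finset.mem_filter.1 hs).2)
            fun s _ s' _ hne => hdj s s' hne).le
        · simp
      rw [Finset.card_univ, Fintype.card_fin] at h1
      have h3 : (2 * L + 1) * c ≤ (2 * Λ + 1) * c := Nat.mul_le_mul_right _ (by omega)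
      omega
    -- an independent set of them
    obtain ⟨T, hTS, hTc, hT⟩ := exists_indep L
      (fun s s' => ¬ Disjoint (tl d (k + 1) (π s')) (Fw s)) c S (fun s _ U _ hU =>
        le_trans (card_meet U (fun s' => tl d (k + 1) (π s'))
          (fun s _ s' _ hne => hdj s s' hne) (Fw s) hU) (hFw s)) hSc
    let e := T.equivFinOfCardEq hTc
    have heT : ∀ r, (e.symm r).val ∈ T := fun r => (e.symm r).2
    have hene : ∀ r r', r ≠ r' → (e.symm r).val ≠ (e.symm r').val := fun r r' hne h =>
      hne (e.symm.injective (Subtype.ext h))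
    set Fb : Finset (Fin M) := {a} ∪ Finset.univ.biUnion fun r : Fin c =>
      Fw (e.symm r).val ∪ tl d (k + 1) (π (e.symm r).val) with hFb
    obtain ⟨r, x, i₀, hg⟩ := compose (d := d) hc hn hk σ Nr hdis a (fun r => π (e.symm r).val)
      (fun r => Fw (e.symm r).val) (fun r => haW _) (fun r => hat _)
      (fun r r' hne => hdj _ _ (hene r r' hne))
      (fun r r' hne => not_not.1 (hT _ (heT r) _ (heT r') (hene r r' hne)))
      Fb (Finset.mem_union_left _ (Finset.mem_singleton_self a))
      (fun r => Finset.Subset.trans Finset.subset_union_left (Finset.Subset.trans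
        (Finset.subset_biUnion_of_mem
          (fun r : Fin c => Fw (e.symm r).val ∪ tl d (k + 1) (π (e.symm r).val))
          (Finset.mem_univ r)) Finset.subset_union_right))
      (fun r => Finset.Subset.trans Finset.subset_union_right (Finset.Subset.trans
        (Finset.subset_biUnion_of_mem
          (fun r : Fin c => Fw (e.symm r).val ∪ tl d (k + 1) (π (e.symm r).val))
          (Finset.mem_univ r)) Finset.subset_union_right))
      L' (by
        have h1 : Fb.card ≤ 1 + c * (L + d) := by
          refine le_trans (Finset.card_union_le _ _) (Nat.add_le_add ?_ ?_)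
          · simp
          · refine le_trans (Finset.card_biUnion_le_card_mul _ _ (L + d) fun s _ =>
                le_trans (Finset.card_union_le _ _) (Nat.add_le_add (hFw _) (tl_card_le _ _ _))) ?_
            simp
        omega)
      (fun r => (Finset.mem_filter.1 (hTS (heT r))).2 r)
    exact hFw2 _ ⟨x, i₀, hg⟩

/-- **Blocks.** For any `J` deterministic strategies for `lnet d M`, `M` large, there is one
collection of `n ≥ J c ^ d` paths on which each of them is slow. -/
theorem exists_blocks (c d n J : ℕ) (hc : 1 ≤ c) (hd : 1 ≤ d) (hn : 0 < n)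
    (hJ : J * c ^ d ≤ n) (hM : Mst c d n ≤ M) (σ : Fin J → Strat (lnet d M)) :
    ∃ x : Fin n → ℕ → Fin M,
      (∀ j < d, ∀ a, (Finset.univ.filter fun i => x i j = a).card ≤ c) ∧
      (∀ i i', i ≠ i' → ∀ j < d, ∀ j' < d, x i j = x i' j → x i j' = x i' j' → j = j') ∧
      ∀ r, ∃ i, (run (σ r) (lcoll d Finset.univ x) (d * (c + 1) - 2)).pos i ≤ 2 * d - 2 := by
  classical
  have hM1 : n * d + n + 1 ≤ M := by
    have h3 : Mst c d n = c * Rf c d (Lr c d n d) d +
      Rf c d (Lr c d n d) d * (Lr c d n d + d) + n * d + n + 1 := rfl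
    omega
  -- the blocks
  obtain ⟨U, -, hU⟩ := Finset.exists_subset_card_eq (s := (Finset.univ : Finset (Fin n)))
    (n := J * c ^ d) (by simpa using hJ)
  obtain ⟨Nr, hdis, hcard, rfl⟩ := exists_partition U hU
  set U := Finset.univ.biUnion Nr with hUdef
  have hgood : ∀ r, (fun _ => ⟨0, by omega⟩ : ℕ → Fin M) ∉ Bad c (σ r) d (n * d) (Nr r) :=
    fun r hr => thin_bad c d n hc hn hM (σ r) d le_rfl (Nr r) (hcard r)
      ⟨fun _ => _, fun _ => by rw [Nat.sub_self]; exact hr, fun s s' _ => by simp [tl]⟩
  obtain ⟨x, f, hxf⟩ := exists_seq c (by omega : 0 < M) hn σ d Nr hdis ∅ (n * d)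
    (by simp) _ hgood
  have hsep : ∀ r r', r' < r → ∀ i ∈ Nr r, ∀ i' ∈ Nr r', ∀ j < d, x i j ≠ x i' j := by
    intro r r' hlt i hi i' hi' j hj heq
    have hm : x i j ∈ lab d (bef Nr r) x := by
      rw [heq]
      exact mem_lab (Finset.mem_filter.2 ⟨Finset.mem_univ _, r', hlt, hi'⟩) hj
    by_cases h : i = f r
    · subst h
      exact (hxf r).low j hj (Finset.mem_union_right _ hm)
    · exact ((hxf r).oth i hi h j hj).1 (Finset.mem_union_right _ hm)
  -- fresh labels for the packets outside the blocks
  have hfresh : n ≤ (Finset.univ \ lab d U x : Finset (Fin M)).card := by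
    have h1 := Finset.le_card_sdiff (lab d U x) (Finset.univ : Finset (Fin M))
    rw [Finset.card_univ, Fintype.card_fin] at h1
    have h2 := lab_card (d := d) U x
    omega
  obtain ⟨T, hT, hTc⟩ := Finset.exists_subset_card_eq hfresh
  let e := T.equivFinOfCardEq hTc
  set g : Fin n → Fin M := fun i => (e.symm i).val with hg
  have hginj : Function.Injective g := Subtype.val_injective.comp e.symm.injective
  have hgU : ∀ i, g i ∉ lab d U x := fun i =>
    (Finset.mem_sdiff.1 (hT (e.symm i).2)).2
  set y : Fin n → ℕ → Fin M := fun i => if i ∈ U then x i else fun _ => g i with hy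
  have hyU : ∀ i ∈ U, y i = x i := fun i hi => by simp only [hy, if_pos hi]
  have hyn : ∀ i ∉ U, ∀ j, y i j = g i := fun i hi j => by simp only [hy, if_neg hi]
  have hsub : ∀ r, Nr r ⊆ U := fun r => Finset.subset_biUnion_of_mem Nr (Finset.mem_univ r)
  have hyN : ∀ r, ∀ i ∈ Nr r, y i = x i := fun r i hi => hyU i (hsub r hi)
  -- packets with a common label are in the same block
  have hcross : ∀ i i', i ≠ i' → ∀ j < d, y i j = y i' j → ∃ r, i ∈ Nr r ∧ i' ∈ Nr r := by
    intro i i' hne j hj heq
    by_cases hi : i ∈ U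
    · by_cases hi' : i' ∈ U
      · rw [hyU i hi, hyU i' hi'] at heq
        obtain ⟨r, -, hr⟩ := Finset.mem_biUnion.1 hi
        obtain ⟨r', -, hr'⟩ := Finset.mem_biUnion.1 hi'
        by_cases hrr : r = r'
        · subst hrr; exact ⟨r, hr, hr'⟩
        · rcases lt_or_gt_of_ne hrr with hlt | hlt
          · exact absurd heq.symm (hsep r' r hlt i' hr' i hr j hj)
          · exact absurd heq (hsep r r' hlt i hr i' hr' j hj)
      · rw [hyU i hi, hyn i' hi'] at heq
        exact absurd (heq ▸ mem_lab hi hj) (hgU i')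
    · by_cases hi' : i' ∈ U
      · rw [hyU i' hi', hyn i hi] at heq
        exact absurd (heq ▸ mem_lab hi' hj) (hgU i)
      · rw [hyn i hi, hyn i' hi'] at heq
        exact absurd (hginj heq) hne
  refine ⟨y, ?_, ?_, ?_⟩
  · intro j hj a
    by_cases hex : ∃ i, i ∈ U ∧ y i j = a
    · obtain ⟨i, hi, hia⟩ := hex
      obtain ⟨r, -, hr⟩ := Finset.mem_biUnion.1 hi
      refine le_trans (Finset.card_le_card fun i' hi' => ?_) ((hxf r).cong j hj a)
      have h1 : y i' j = a := (Finset.mem_filter.1 hi').2
      have h2 : i' ∈ Nr r := by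
        by_cases hii : i' = i
        · rw [hii]; exact hr
        · obtain ⟨r', h3, h4⟩ := hcross i' i hii j hj (h1.trans hia.symm)
          have : r' = r := by
            by_contra hne
            exact Finset.disjoint_left.1 (hdis r' r hne) h4 hr
          exact this ▸ h3
      exact Finset.mem_filter.2 ⟨h2, by rw [← hyN r i' h2]; exact h1⟩
    · refine le_trans (Finset.card_le_one.2 fun i hi i' hi' => ?_) hc
      have h1 : y i j = a := (Finset.mem_filter.1 hi).2
      have h2 : y i' j = a := (Finset.mem_filter.1 hi').2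
      by_contra hne
      obtain ⟨r, h3, -⟩ := hcross i i' hne j hj (h1.trans h2.symm)
      exact hex ⟨i, hsub r h3, h1⟩
  · intro i i' hne j hj j' hj' h1 h2
    obtain ⟨r, h3, h4⟩ := hcross i i' hne j hj h1
    rw [hyN r i h3, hyN r i' h4] at h1 h2
    exact (hxf r).share i h3 i' h4 hne j hj j' hj' h1 h2
  · intro r
    refine ⟨f r, ?_⟩
    refine late_of_subset (σ r) (Finset.subset_univ (Nr r)) y d le_rfl
      (fun i hi i' _ hi' j hj heq => ?_) _ (f r) (hxf r).mem hd ?_
    · have hne : i ≠ i' := fun h => hi' (h ▸ hi)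
      obtain ⟨r', h3, h4⟩ := hcross i i' hne j hj heq
      have : r' = r := by
        by_contra hne
        exact Finset.disjoint_left.1 (hdis r' r hne) h3 hi
      exact hi' (this ▸ h4)
    · rw [lcoll_congr (hyN r)]
      exact (hxf r).late

end Pool.Agent.Det0225
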