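import Pool.Agent.Lib_MP_0225c1.Own.Defs

/-!
# MP_0225c1_lc: deterministic oblivious strategies with full local information

The model (`View`, `Strat`, `run`, `Arrived`) and the locality lemma.
-/

namespace Pool.Agent.Det0225

open Pool.Agent.PR0225 (Net Coll cong)

/-- Everything which a node can know at time `t`: at time `0` the set of all packets (name, whole
path) whose path visits the node (so every node knows in advance which packets will ever visit it,
and every edge knows its congestion); at time `t + 1` everything it knew at time `t`, and the set of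
all (name of a packet, edge, everything which the source of the edge knew at time `t`) for the
packets which crossed an edge into the node in step `t`. -/
def View (E : Type) : ℕ → Type
  | 0 => Set (ℕ × List E)
  | t + 1 => View E t × Set (ℕ × E × View E t)

/-- A deterministic oblivious strategy for the network `G`: `σ t e x` is the name of the packet
(if any) which has to cross the edge `e` in step `t` when the source of `e` knows `x`. -/
def Strat (G : Net) : Type := (t : ℕ) → G.E → View G.E t → Option ℕ

/-- State of the network at time `t`: the number of edges which each packet has crossed, and what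
each node knows. -/
structure State (G : Net) (n : ℕ) (t : ℕ) where
  /-- number of crossed edges -/
  pos : Fin n → ℕ
  /-- knowledge of the nodes -/
  view : G.V → View G.E t

/-- packet `i` crosses the edge `e` in step `t` -/
def Cross {G : Net} {n : ℕ} (σ : Strat G) (C : Coll G n) (t : ℕ) (s : State G n t) (i : Fin n)
    (e : G.E) : Prop :=
  (C.path i)[s.pos i]? = some e ∧ σ t e (s.view (G.src e)) = some i.val

/-- knowledge at time `0`: names and whole paths of all packets whose path visits the node `v` -/
def view0 {G : Net} {n : ℕ} (C : Coll G n) (v : G.V) : View G.E 0 :=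
  {x : ℕ × List G.E | ∃ i : Fin n, x = (i.val, C.path i) ∧
    ∃ e ∈ C.path i, G.src e = v ∨ G.tgt e = v}

/-- what the node `v` learns in step `t` -/
def news {G : Net} {n : ℕ} (σ : Strat G) (C : Coll G n) (t : ℕ) (s : State G n t) (v : G.V) :
    Set (ℕ × G.E × View G.E t) :=
  {x | ∃ i e, Cross σ C t s i e ∧ G.tgt e = v ∧ x = (i.val, e, s.view (G.src e))}

open Classical in
/-- the run of the strategy `σ` on the collection `C` -/
noncomputable def run {G : Net} {n : ℕ} (σ : Strat G) (C : Coll G n) : (t : ℕ) → State G n t
  | 0 => ⟨fun _ => 0, view0 C⟩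
  | t + 1 => ⟨fun i => if ∃ e, Cross σ C t (run σ C t) i e then (run σ C t).pos i + 1
      else (run σ C t).pos i,
      fun v => ((run σ C t).view v, news σ C t (run σ C t) v)⟩

/-- packet `i` has reached the end of its path at time `t` -/
def Arrived {G : Net} {n : ℕ} (σ : Strat G) (C : Coll G n) (t : ℕ) (i : Fin n) : Prop :=
  (run σ C t).pos i = (C.path i).length

variable {G : Net} {n : ℕ} (σ : Strat G) (C C' : Coll G n)

theorem pos_zero (i : Fin n) : (run σ C 0).pos i = 0 := rfl

theorem pos_succ_of_cross {t : ℕ} {i : Fin n} {e : G.E} (h : Cross σ C t (run σ C t) i e) :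
    (run σ C (t + 1)).pos i = (run σ C t).pos i + 1 := by
  have : ∃ e, Cross σ C t (run σ C t) i e := ⟨e, h⟩
  simp only [run, if_pos this]

theorem pos_succ_of_not {t : ℕ} {i : Fin n} (h : ¬ ∃ e, Cross σ C t (run σ C t) i e) :
    (run σ C (t + 1)).pos i = (run σ C t).pos i := by
  simp only [run, if_neg h]

theorem pos_le_succ (t : ℕ) (i : Fin n) :
    (run σ C t).pos i ≤ (run σ C (t + 1)).pos i := by
  by_cases h : ∃ e, Cross σ C t (run σ C t) i e
  · obtain ⟨e, he⟩ := h
    rw [pos_succ_of_cross σ C he]; omega
  · rw [pos_succ_of_not σ C h]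

theorem pos_succ_le (t : ℕ) (i : Fin n) :
    (run σ C (t + 1)).pos i ≤ (run σ C t).pos i + 1 := by
  by_cases h : ∃ e, Cross σ C t (run σ C t) i e
  · obtain ⟨e, he⟩ := h
    rw [pos_succ_of_cross σ C he]
  · rw [pos_succ_of_not σ C h]; omega

theorem pos_mono (i : Fin n) : Monotone fun t => (run σ C t).pos i :=
  monotone_nat_of_le_succ fun t => pos_le_succ σ C t i

theorem pos_add_le (t s : ℕ) (i : Fin n) :
    (run σ C (t + s)).pos i ≤ (run σ C t).pos i + s := by
  induction s with
  | zero => simp
  | succ s ih => have := pos_succ_le σ C (t + s) i; rw [← add_assoc]; omega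

/-- **Locality.** If the packets outside `N` never touch the set of nodes `Z`, and the packets of
`N` (which have the same paths in both collections) enter `Z` only from `Z`, then what happens in
`Z` is the same for both collections. -/
theorem locality (N : Set (Fin n)) (Z : Set G.V) (h1 : ∀ i ∈ N, C.path i = C'.path i)
    (h2 : ∀ i ∉ N, ∀ e ∈ C.path i, G.src e ∉ Z ∧ G.tgt e ∉ Z)
    (h2' : ∀ i ∉ N, ∀ e ∈ C'.path i, G.src e ∉ Z ∧ G.tgt e ∉ Z)
    (h3 : ∀ i ∈ N, ∀ e ∈ C.path i, G.tgt e ∈ Z → G.src e ∈ Z) (t : ℕ) :
    (∀ v ∈ Z, (run σ C t).view v = (run σ C' t).view v) ∧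
    ∀ i ∈ N, ∀ (k : ℕ) (e : G.E), (C.path i)[k]? = some e → G.src e ∈ Z →
      min ((run σ C t).pos i) (k + 1) = min ((run σ C' t).pos i) (k + 1) := by
  -- prefixes
  have hpre : ∀ i ∈ N, ∀ (k : ℕ) (e : G.E), (C.path i)[k]? = some e → G.src e ∈ Z → ∀ j ≤ k,
      ∃ f, (C.path i)[j]? = some f ∧ G.src f ∈ Z := by
    intro i hi k e hk he j hj
    induction k generalizing e with
    | zero => obtain rfl : j = 0 := by omega
              exact ⟨e, hk, he⟩
    | succ k ih =>
      rcases Nat.lt_or_ge k j with h | h
      · obtain rfl : j = k + 1 := by omega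
        exact ⟨e, hk, he⟩
      · obtain ⟨hlt, hget⟩ := List.getElem?_eq_some_iff.1 hk
        have hf : (C.path i)[k]? = some ((C.path i)[k]'(by omega)) :=
          List.getElem?_eq_getElem (by omega)
        have hch := List.isChain_iff_getElem.1 (C.chain i) k (by omega)
        refine ih ((C.path i)[k]'(by omega)) hf ?_ h
        refine h3 i hi _ (List.getElem_mem _) ?_
        rw [hch, hget]
        exact he
  induction t with
  | zero =>
    refine ⟨fun v hv => ?_, fun i hi k e hk he => by simp [run]⟩
    change view0 C v = view0 C' v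
    refine Set.ext fun x => ?_
    constructor
    · rintro ⟨i, rfl, e, he, hs⟩
      have hi : i ∈ N := by
        by_contra hi
        rcases hs with hs | hs
        · exact (h2 i hi e he).1 (hs ▸ hv)
        · exact (h2 i hi e he).2 (hs ▸ hv)
      exact ⟨i, by rw [h1 i hi], e, by rw [← h1 i hi]; exact he, hs⟩
    · rintro ⟨i, rfl, e, he, hs⟩
      have hi : i ∈ N := by
        by_contra hi
        rcases hs with hs | hs
        · exact (h2' i hi e he).1 (hs ▸ hv)
        · exact (h2' i hi e he).2 (hs ▸ hv)
      exact ⟨i, by rw [h1 i hi], e, by rw [h1 i hi]; exact he, hs⟩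
  | succ t ih =>
    obtain ⟨ihv, ihp⟩ := ih
    -- crossings agree
    have hcr : ∀ i ∈ N, ∀ e, G.src e ∈ Z →
        (Cross σ C t (run σ C t) i e ↔ Cross σ C' t (run σ C' t) i e) := by
      intro i hi e he
      constructor
      · rintro ⟨ha, hb⟩
        have := ihp i hi _ e ha he
        have hp : (run σ C' t).pos i = (run σ C t).pos i := by omega
        exact ⟨by rw [hp, ← h1 i hi]; exact ha, by rw [← ihv _ he]; exact hb⟩
      · rintro ⟨ha, hb⟩
        have := ihp i hi _ e (by rw [h1 i hi]; exact ha) he
        have hp : (run σ C' t).pos i = (run σ C t).pos i := by omega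
        exact ⟨by rw [← hp, h1 i hi]; exact ha, by rw [ihv _ he]; exact hb⟩
    refine ⟨fun v hv => ?_, fun i hi k e hk he => ?_⟩
    · change ((run σ C t).view v, news σ C t (run σ C t) v) =
        ((run σ C' t).view v, news σ C' t (run σ C' t) v)
      refine Prod.ext (ihv v hv) ?_
      refine Set.ext fun x => ?_
      constructor
      · rintro ⟨i, e, hc, hv', rfl⟩
        have hm : e ∈ C.path i := List.mem_of_getElem? hc.1
        have hi : i ∈ N := by
          by_contra hi
          exact (h2 i hi e hm).2 (hv' ▸ hv)
        have hs : G.src e ∈ Z := h3 i hi e hm (hv' ▸ hv)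
        exact ⟨i, e, (hcr i hi e hs).1 hc, hv', by rw [ihv _ hs]⟩
      · rintro ⟨i, e, hc, hv', rfl⟩
        have hm : e ∈ C'.path i := List.mem_of_getElem? hc.1
        have hi : i ∈ N := by
          by_contra hi
          exact (h2' i hi e hm).2 (hv' ▸ hv)
        have hs : G.src e ∈ Z := h3 i hi e (by rw [h1 i hi]; exact hm) (hv' ▸ hv)
        exact ⟨i, e, (hcr i hi e hs).2 hc, hv', by rw [ihv _ hs]⟩
    · have hp := ihp i hi k e hk he
      rcases Nat.lt_or_ge k ((run σ C t).pos i) with h | h
      · have h' : k < (run σ C' t).pos i := by omega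
        have := pos_le_succ σ C t i
        have := pos_le_succ σ C' t i
        omega
      · have hq : (run σ C' t).pos i = (run σ C t).pos i := by omega
        obtain ⟨f, hf, hfz⟩ := hpre i hi k e hk he _ h
        have key : (∃ e, Cross σ C t (run σ C t) i e) ↔ ∃ e, Cross σ C' t (run σ C' t) i e := by
          constructor
          · rintro ⟨g, hg⟩
            have : g = f := by
              have := hg.1; rw [hf] at this; exact (Option.some.inj this).symm
            subst this
            exact ⟨g, (hcr i hi g hfz).1 hg⟩
          · rintro ⟨g, hg⟩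
            have : g = f := by
              have := hg.1; rw [hq, ← h1 i hi, hf] at this; exact (Option.some.inj this).symm
            subst this
            exact ⟨g, (hcr i hi g hfz).2 hg⟩
        by_cases hx : ∃ e, Cross σ C t (run σ C t) i e
        · obtain ⟨g, hg⟩ := hx
          obtain ⟨g', hg'⟩ := key.1 ⟨g, hg⟩
          rw [pos_succ_of_cross σ C hg, pos_succ_of_cross σ C' hg', hq]
        · rw [pos_succ_of_not σ C hx, pos_succ_of_not σ C' (fun h => hx (key.2 h)), hq]

/-- **Pigeonhole.** If `c` packets need the same edge (the one with index `k` in their paths) and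
have crossed at most `k` edges at time `t`, then one of them has crossed at most `k` edges at time
`t + (c - 1)`. -/
theorem pigeon (c : ℕ) (hc : 1 ≤ c) (f : Fin c → Fin n) (hf : Function.Injective f) (k : ℕ)
    (e : G.E) (he : ∀ r, (C.path (f r))[k]? = some e) (t : ℕ)
    (hk : ∀ r, (run σ C t).pos (f r) ≤ k) :
    ∃ r, (run σ C (t + (c - 1))).pos (f r) ≤ k := by
  by_contra hcon
  push Not at hcon
  -- crossing times
  have hx : ∀ r, ∃ s < c - 1, Cross σ C (t + s) (run σ C (t + s)) (f r) e := by
    intro r
    have hex : ∃ s, k < (run σ C (t + s)).pos (f r) := ⟨c - 1, hcon r⟩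
    classical
    have h0 := Nat.find_spec hex
    have hmin : ∀ s < Nat.find hex, (run σ C (t + s)).pos (f r) ≤ k := fun s hs => by
      have := Nat.find_min hex hs; omega
    have hne : Nat.find hex ≠ 0 := by
      intro h
      rw [h] at h0
      have := hk r
      simp only [Nat.add_zero] at h0
      omega
    obtain ⟨s, hs⟩ := Nat.exists_eq_succ_of_ne_zero hne
    have hle : Nat.find hex ≤ c - 1 := Nat.find_min' hex (hcon r)
    have h1 := hmin s (by omega)
    rw [hs] at h0
    have h2 : (run σ C (t + s + 1)).pos (f r) ≤ (run σ C (t + s)).pos (f r) + 1 :=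
      pos_succ_le σ C _ _
    have h3 : k < (run σ C (t + s + 1)).pos (f r) := h0
    have h4 : (run σ C (t + s)).pos (f r) = k := by omega
    refine ⟨s, by omega, ?_⟩
    by_contra hn
    have hn' : ¬ ∃ e, Cross σ C (t + s) (run σ C (t + s)) (f r) e := by
      rintro ⟨g, hg⟩
      have : g = e := by
        have := hg.1; rw [h4, he r] at this; exact (Option.some.inj this).symm
      subst this
      exact hn hg
    have := pos_succ_of_not σ C hn'
    omega
  choose s hs hcr using hx
  have hinj : Function.Injective fun r => (⟨s r, hs r⟩ : Fin (c - 1)) := by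
    intro r r' h
    have h' : s r = s r' := by simpa using h
    have e1 := (hcr r).2
    have e2 := (hcr r').2
    rw [← h'] at e2
    rw [e1] at e2
    exact hf (Fin.ext (Option.some.inj e2))
  have := Fintype.card_le_of_injective _ hinj
  simp only [Fintype.card_fin] at this
  omega

end Pool.Agent.Det0225
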