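import Pool.Agent.Lib_MP_0225c1_det.Main

/-!
# MP_0225c1_lc, deterministic strategies: arithmetic
-/

open Filter

namespace Pool.Agent.Det0225

theorem Lr_le {c d n : ℕ} (hc : 1 ≤ c) (j : ℕ) :
    Lr c d n j ≤ (c + 1) ^ j * (n * d + c * d + 1) := by
  induction j with
  | zero => simp only [Lr, pow_zero, one_mul]; omega
  | succ j ih =>
    have h1 : Lr c d n (j + 1) = 1 + c * (Lr c d n j + d) + n * d := rfl
    have h2 : 1 ≤ (c + 1) ^ j := Nat.one_le_pow _ _ (by omega)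
    set X := n * d + c * d + 1 with hX
    have h3 : c * Lr c d n j ≤ c * ((c + 1) ^ j * X) := Nat.mul_le_mul_left _ ih
    have h4 : X ≤ (c + 1) ^ j * X := Nat.le_mul_of_pos_left _ h2
    have h5 : (c + 1) ^ (j + 1) * X = c * ((c + 1) ^ j * X) + (c + 1) ^ j * X := by ring
    rw [h1, h5]
    have h6 : c * (Lr c d n j + d) = c * Lr c d n j + c * d := by ring
    omega

theorem Rf_le {c d Λ : ℕ} (hc : 1 ≤ c) (k : ℕ) :
    Rf c d Λ k ≤ (c * (d + 1) + 1) ^ k * (2 * c * (Λ + 1)) := by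
  have hY : 1 ≤ 2 * c * (Λ + 1) := by
    have : 1 * 1 ≤ (2 * c) * (Λ + 1) := Nat.mul_le_mul (by omega) (by omega)
    simpa using this
  induction k with
  | zero => simpa only [Rf, pow_zero, one_mul] using hY
  | succ k ih =>
    have h1 : Rf c d Λ (k + 1) = c * (Rf c d Λ k * (d + 1) + 1) + (2 * Λ + 1) * c := rfl
    have h2 : 1 ≤ (c * (d + 1) + 1) ^ k := Nat.one_le_pow _ _ (by omega)
    set Y := 2 * c * (Λ + 1) with hYd
    have h3 : c * (d + 1) * Rf c d Λ k ≤ c * (d + 1) * ((c * (d + 1) + 1) ^ k * Y) :=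
      Nat.mul_le_mul_left _ ih
    have h4 : Y ≤ (c * (d + 1) + 1) ^ k * Y := Nat.le_mul_of_pos_left _ h2
    have h5 : (c * (d + 1) + 1) ^ (k + 1) * Y =
        c * (d + 1) * ((c * (d + 1) + 1) ^ k * Y) + (c * (d + 1) + 1) ^ k * Y := by ring
    have h6 : c * (Rf c d Λ k * (d + 1) + 1) + (2 * Λ + 1) * c =
        c * (d + 1) * Rf c d Λ k + Y := by rw [hYd]; ring
    rw [h1, h5, h6]
    omega

theorem Mst_le {c d n : ℕ} (hc : 1 ≤ c) (hd : 1 ≤ d) (hn : 1 ≤ n) :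
    Mst c d n ≤ 50 * n ^ 2 * c ^ 3 * d ^ 2 * ((c * (d + 1) + 1) ^ d) ^ 3 := by
  set Λ := Lr c d n d with hΛ
  set W := (c * (d + 1) + 1) ^ d with hW
  have hW1 : 1 ≤ W := Nat.one_le_pow _ _ (by omega)
  have hcW : (c + 1) ^ d ≤ W := Nat.pow_le_pow_left (by nlinarith) d
  have hcd : 1 ≤ c * d := Nat.mul_le_mul hc hd
  have hP : 1 ≤ n * c * d := by nlinarith
  set P := n * c * d with hPd
  have hX : n * d + c * d + 1 ≤ 3 * P := by
    have h1 : n * d ≤ P := by rw [hPd]; nlinarith [Nat.mul_le_mul_left (n * d) hc]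
    have h2 : c * d ≤ P := by rw [hPd]; nlinarith [Nat.mul_le_mul_left (c * d) hn]
    omega
  have hPW : P ≤ P * W := Nat.le_mul_of_pos_right _ hW1
  have hPW1 : 1 ≤ P * W := le_trans hP hPW
  have hΛ1 : Λ ≤ 3 * (P * W) := by
    calc Λ ≤ (c + 1) ^ d * (n * d + c * d + 1) := Lr_le hc d
      _ ≤ W * (3 * P) := Nat.mul_le_mul hcW hX
      _ = 3 * (P * W) := by ring
  have hR : Rf c d Λ d ≤ W * (2 * c * (4 * (P * W))) := by
    refine le_trans (Rf_le hc d) (Nat.mul_le_mul_left _ (Nat.mul_le_mul_left _ ?_))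
    omega
  have hcP : c ≤ P := by rw [hPd]; nlinarith [Nat.mul_le_mul_left c (Nat.mul_le_mul hn hd)]
  have hdP : d ≤ P := by rw [hPd]; nlinarith [Nat.mul_le_mul_left d (Nat.mul_le_mul hn hc)]
  have hndP : n * d ≤ P := by rw [hPd]; nlinarith [Nat.mul_le_mul_left (n * d) hc]
  have hnP : n ≤ P := by rw [hPd]; nlinarith [Nat.mul_le_mul_left n hcd]
  have h1 : Mst c d n = c * Rf c d Λ d + Rf c d Λ d * (Λ + d) + n * d + n + 1 := rfl
  have h2 : c * Rf c d Λ d + Rf c d Λ d * (Λ + d) ≤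
      (W * (2 * c * (4 * (P * W)))) * (5 * (P * W)) := by
    calc c * Rf c d Λ d + Rf c d Λ d * (Λ + d) = Rf c d Λ d * (c + Λ + d) := by ring
      _ ≤ (W * (2 * c * (4 * (P * W)))) * (5 * (P * W)) := Nat.mul_le_mul hR (by omega)
  have h3 : n * d + n + 1 ≤ 3 * (P * W) := by omega
  have h4 : 3 * (P * W) ≤ 3 * ((P * W) * (W * c * (P * W))) := by
    have : 1 ≤ W * c * (P * W) := Nat.mul_le_mul (Nat.mul_le_mul hW1 hc) hPW1
    exact Nat.mul_le_mul_left _ (Nat.le_mul_of_pos_right _ this)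
  calc Mst c d n ≤ (W * (2 * c * (4 * (P * W)))) * (5 * (P * W)) +
        3 * ((P * W) * (W * c * (P * W))) := by omega
    _ = 43 * n ^ 2 * c ^ 3 * d ^ 2 * W ^ 3 := by rw [hPd]; ring
    _ ≤ 50 * n ^ 2 * c ^ 3 * d ^ 2 * W ^ 3 := by gcongr; norm_num

/-- powers of the logarithm are small -/
theorem eventually_log_pow (a ε : ℝ) (hε : 0 < ε) :
    ∀ᶠ n : ℕ in atTop, Real.log n ^ a ≤ ε * n := by
  have h := (isLittleO_log_rpow_rpow_atTop a (zero_lt_one' ℝ)).def hε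
  have h1 := (tendsto_natCast_atTop_atTop (R := ℝ)).eventually h
  filter_upwards [h1, eventually_ge_atTop 1] with n hn hn1
  rw [Real.rpow_one, Real.norm_of_nonneg (Nat.cast_nonneg n)] at hn
  exact le_trans (le_abs_self _) hn

theorem eventually_log_ge (B : ℝ) : ∀ᶠ n : ℕ in atTop, B ≤ Real.log n :=
  (Real.tendsto_log_atTop.comp (tendsto_natCast_atTop_atTop (R := ℝ))).eventually
    (eventually_ge_atTop B)

/-- **The choice of the parameters.** -/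
theorem params (K γ : ℝ) (hK : 0 < K) (hγ : 0 < γ) :
    ∃ (A : ℝ) (d n₀ : ℕ), 1 ≤ d ∧ ∀ n ≥ n₀, 1 ≤ n ∧ ((2 * d - 1 : ℕ) : ℝ) ≤ Real.log n ∧
      ∃ c : ℕ, 1 ≤ c ∧ (n : ℝ) / Real.log n ^ A ≤ (n / c ^ d : ℕ) ∧
      K * (c + (2 * d - 1 : ℕ) + Real.log n ^ γ) < (c * d + d - 1 : ℕ) ∧
      2 * d * Mst c d n ≤ n ^ 3 := by
  set d := ⌈K + 1⌉₊ with hd
  have hKd : K + 1 ≤ d := Nat.le_ceil _
  have hd0 : (0 : ℝ) < d := by linarith
  have hd1 : 1 ≤ d := by exact_mod_cast hd0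
  have hd1' : (1 : ℝ) ≤ d := by exact_mod_cast hd1
  set A : ℝ := (γ + 2) * d + 1 with hA
  set D : ℝ := 100 * d * d ^ 2 * (d + 2) ^ (3 * d) with hD
  have hD0 : 0 < D := by positivity
  have hev : ∀ᶠ n : ℕ in atTop, 1 ≤ n ∧ ((2 * d - 1 : ℕ) : ℝ) ≤ Real.log n ∧
      2 ≤ Real.log n ∧ K + K * ((2 * d - 1 : ℕ) : ℝ) + 1 ≤ Real.log n ∧
      Real.log n ^ ((γ + 2) * d) ≤ 1 * n ∧
      Real.log n ^ ((γ + 2) * (3 * d + 3)) ≤ 1 / D * n := by
    filter_upwards [eventually_ge_atTop 1, eventually_log_ge ((2 * d - 1 : ℕ) : ℝ),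
      eventually_log_ge 2, eventually_log_ge (K + K * ((2 * d - 1 : ℕ) : ℝ) + 1),
      eventually_log_pow ((γ + 2) * d) 1 one_pos,
      eventually_log_pow ((γ + 2) * (3 * d + 3)) (1 / D) (by positivity)] with n h1 h2 h3 h4 h5 h6
    exact ⟨h1, h2, h3, h4, h5, h6⟩
  obtain ⟨n₀, hn₀⟩ := eventually_atTop.1 hev
  refine ⟨A, d, n₀, hd1, fun n hn => ?_⟩
  obtain ⟨hn1, h2d, hl2, hlK, hp1, hp2⟩ := hn₀ n hn
  refine ⟨hn1, h2d, ?_⟩
  set ℓ := Real.log n with hℓ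
  have hℓ0 : 0 < ℓ := by linarith
  have hn1' : (1 : ℝ) ≤ n := by exact_mod_cast hn1
  set c := ⌈ℓ ^ (γ + 1)⌉₊ with hc
  have hlg : 1 ≤ ℓ ^ γ := Real.one_le_rpow (by linarith) hγ.le
  have hlg1 : ℓ ^ (γ + 1) = ℓ ^ γ * ℓ := Real.rpow_add_one hℓ0.ne' γ
  have hlg2 : 1 ≤ ℓ ^ (γ + 1) := Real.one_le_rpow (by linarith) (by linarith)
  have hcge : ℓ ^ (γ + 1) ≤ c := Nat.le_ceil _
  have hcle : (c : ℝ) ≤ ℓ ^ (γ + 2) := by
    have h1 : (c : ℝ) < ℓ ^ (γ + 1) + 1 := Nat.ceil_lt_add_one (by linarith)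
    have h2 : ℓ ^ (γ + 2) = ℓ ^ (γ + 1) * ℓ := by
      rw [← Real.rpow_add_one hℓ0.ne']
      congr 1
      ring
    rw [h2]
    nlinarith
  have hc1' : (1 : ℝ) ≤ c := by linarith
  have hc1 : 1 ≤ c := by exact_mod_cast hc1'
  have hcd : (c : ℝ) ^ d ≤ ℓ ^ ((γ + 2) * d) := by
    calc (c : ℝ) ^ d ≤ (ℓ ^ (γ + 2)) ^ d := by gcongr
      _ = ℓ ^ ((γ + 2) * d) := by
          rw [← Real.rpow_natCast (ℓ ^ (γ + 2)) d, ← Real.rpow_mul hℓ0.le]
  have hcdn : (c : ℝ) ^ d ≤ n := by linarith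
  have hcdn' : c ^ d ≤ n := by exact_mod_cast hcdn
  have hcdp : 0 < c ^ d := by positivity
  refine ⟨c, hc1, ?_, ?_, ?_⟩
  · -- number of blocks
    have h1 : n < (n / c ^ d + 1) * c ^ d := by
      have := Nat.lt_div_mul_add (a := n) hcdp
      rw [add_mul, one_mul]
      exact this
    have h2 : 1 ≤ n / c ^ d := (Nat.one_le_div_iff hcdp).2 hcdn'
    have h3 : (n : ℝ) ≤ ((n / c ^ d : ℕ) : ℝ) * (2 * (c : ℝ) ^ d) := by
      have : n ≤ (n / c ^ d) * (2 * c ^ d) := by nlinarith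
      exact_mod_cast this
    have h4 : 2 * (c : ℝ) ^ d ≤ ℓ ^ A := by
      rw [hA, Real.rpow_add_one hℓ0.ne']
      have h5 : (0 : ℝ) ≤ ℓ ^ ((γ + 2) * d) := Real.rpow_nonneg hℓ0.le _
      nlinarith
    rw [div_le_iff₀ (Real.rpow_pos_of_pos hℓ0 _)]
    refine le_trans h3 ?_
    gcongr
  · have e3 : ((c * d + d - 1 : ℕ) : ℝ) = c * d + d - 1 := by
      rw [Nat.cast_sub (by nlinarith)]
      push_cast
      ring
    rw [e3]
    have h1 : (c : ℝ) * (K + 1) ≤ c * d := by gcongr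
    have h2 : (K + K * ((2 * d - 1 : ℕ) : ℝ) + 1) * ℓ ^ γ ≤ ℓ ^ (γ + 1) := by
      rw [hlg1, mul_comm (ℓ ^ γ)]
      gcongr
    have h3 : K * ((2 * d - 1 : ℕ) : ℝ) * 1 ≤ K * ((2 * d - 1 : ℕ) : ℝ) * ℓ ^ γ := by
      gcongr
    nlinarith
  · -- size of the network
    have h1 := Mst_le hc1 hd1 hn1
    have h2 : c * (d + 1) + 1 ≤ c * (d + 2) := by nlinarith
    have h3 : 2 * d * Mst c d n ≤
        n ^ 2 * ((100 * d * d ^ 2 * (d + 2) ^ (3 * d)) * c ^ (3 * d + 3)) := by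
      calc 2 * d * Mst c d n
          ≤ 2 * d * (50 * n ^ 2 * c ^ 3 * d ^ 2 * ((c * (d + 1) + 1) ^ d) ^ 3) :=
            Nat.mul_le_mul_left _ h1
        _ ≤ 2 * d * (50 * n ^ 2 * c ^ 3 * d ^ 2 * ((c * (d + 2)) ^ d) ^ 3) := by gcongr
        _ = n ^ 2 * ((100 * d * d ^ 2 * (d + 2) ^ (3 * d)) * c ^ (3 * d + 3)) := by
            rw [mul_pow, mul_pow, ← pow_mul, ← pow_mul, pow_add, Nat.mul_comm d 3]
            ring
    have h4 : (((100 * d * d ^ 2 * (d + 2) ^ (3 * d)) * c ^ (3 * d + 3) : ℕ) : ℝ) ≤ n := by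
      push_cast
      have h5 : (c : ℝ) ^ (3 * d + 3) ≤ ℓ ^ ((γ + 2) * (3 * d + 3)) := by
        calc (c : ℝ) ^ (3 * d + 3) ≤ (ℓ ^ (γ + 2)) ^ (3 * d + 3) := by gcongr
          _ = ℓ ^ ((γ + 2) * (3 * d + 3)) := by
              rw [← Real.rpow_natCast (ℓ ^ (γ + 2)) (3 * d + 3), ← Real.rpow_mul hℓ0.le]
              push_cast
              rfl
      calc D * (c : ℝ) ^ (3 * d + 3) ≤ D * (1 / D * n) := by
            gcongr
            exact le_trans h5 hp2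
        _ = n := by field_simp
    have h5 : (100 * d * d ^ 2 * (d + 2) ^ (3 * d)) * c ^ (3 * d + 3) ≤ n := by
      exact_mod_cast h4
    calc 2 * d * Mst c d n ≤ n ^ 2 * n := le_trans h3 (Nat.mul_le_mul_left _ h5)
      _ = n ^ 3 := by ring

end Pool.Agent.Det0225
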