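import Pool.Agent.Lib_MP_0225c1_det.Model

/-!
# MP_0225c1_lc, deterministic strategies: the notions of the statements
-/

namespace Pool.Agent.Det0225

open Pool.Agent.PR0225 (Net Coll cong)

/-- `lev` is a levelling of the network: every edge leads from a level to the next one. -/
def Leveled (G : Net) (lev : G.V → ℕ) : Prop := ∀ e, lev (G.tgt e) = lev (G.src e) + 1

/-- Shortcut-free collection: if two of the paths visit the node `u` (the source of their edges with
the indices `p` and `p'`) and then the node `v` (the target of their edges with the indices `q` and
`q'`), then they agree on the stretch between `u` and `v`. -/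
def ShortcutFree {G : Net} {n : ℕ} (C : Coll G n) : Prop :=
  ∀ (i i' : Fin n) (p q p' q' : ℕ) (e f e' f' : G.E), p ≤ q → p' ≤ q' →
    (C.path i)[p]? = some e → (C.path i)[q]? = some f →
    (C.path i')[p']? = some e' → (C.path i')[q']? = some f' →
    G.src e = G.src e' → G.tgt f = G.tgt f' →
    ((C.path i).take (q + 1)).drop p = ((C.path i').take (q' + 1)).drop p'

/-- Some packet `i` of the collection needs more than `T i` steps. -/
def Slow {G : Net} {n : ℕ} (σ : Strat G) (C : Coll G n) (T : Fin n → ℝ) : Prop :=
  ∃ i, ∀ t, Arrived σ C t i → T i < t

end Pool.Agent.Det0225
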