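import Pool.Agent.Lib_MP_0225c1_det.Main
import Pool.Agent.Lib_MP_0225c1_det.Stat

/-!
# MP_0225c1_lc, deterministic strategies: properties of the collections
-/

namespace Pool.Agent.Det0225

open Pool.Agent.PR0225 (Net Coll cong)
open Pool.Agent.PR0225.Own (ownCong)

variable {d M n : ℕ}

/-- the levels of `lnet d M` -/
def llev (d M : ℕ) (v : (lnet d M).V) : ℕ := v.1.val

theorem leveled_lnet (d M : ℕ) : Leveled (lnet d M) (llev d M) := fun _ => rfl

theorem mem_path_iff (x : Fin n → ℕ → Fin M) (i : Fin n) (e : (lnet d M).E) :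
    e ∈ (lcoll d Finset.univ x).path i ↔
      e.2.1 = x i (e.1.val / 2) ∧ e.2.2 = x i ((e.1.val + 1) / 2) := by
  rw [lcoll_path_of_mem (Finset.mem_univ i), mem_lpath]
  constructor
  · rintro ⟨l, rfl⟩
    exact ⟨rfl, rfl⟩
  · rintro ⟨h1, h2⟩
    exact ⟨e.1, Prod.ext rfl (Prod.ext h1 h2)⟩

theorem cong_le_card (x : Fin n → ℕ → Fin M) (e : (lnet d M).E) (S : Finset (Fin n))
    (hS : ∀ i, e.2.1 = x i (e.1.val / 2) → e.2.2 = x i ((e.1.val + 1) / 2) → i ∈ S) :
    cong (lcoll d Finset.univ x).path e ≤ S.card := by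
  classical
  unfold cong
  refine Finset.card_le_card fun i hi => ?_
  simp only [Finset.mem_filter, Finset.mem_univ, true_and] at hi
  obtain ⟨h1, h2⟩ := (mem_path_iff x i e).1 hi
  exact hS i h1 h2

theorem cong_lcoll {c : ℕ} (x : Fin n → ℕ → Fin M)
    (hx : ∀ j < d, ∀ a, (Finset.univ.filter fun i => x i j = a).card ≤ c) (e : (lnet d M).E) :
    cong (lcoll d Finset.univ x).path e ≤ c := by
  refine le_trans (cong_le_card x e (Finset.univ.filter fun i => x i (e.1.val / 2) = e.2.1)
    fun i h1 _ => Finset.mem_filter.2 ⟨Finset.mem_univ _, h1.symm⟩) (hx _ ?_ _)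
  have := e.1.isLt
  omega

theorem cong_conn (x : Fin n → ℕ → Fin M)
    (hsh : ∀ i i', i ≠ i' → ∀ j < d, ∀ j' < d, x i j = x i' j → x i j' = x i' j' → j = j')
    (i : Fin n) (l : Fin (2 * d - 1)) (hl : l.val % 2 = 1) :
    cong (lcoll d Finset.univ x).path
      ((l, x i (l.val / 2), x i ((l.val + 1) / 2)) : (lnet d M).E) ≤ 1 := by
  refine le_trans (cong_le_card x _ {i} fun i' h1 h2 => ?_) (by simp)
  rw [Finset.mem_singleton]
  by_contra hne
  have hlt := l.isLt
  have := hsh i i' (fun h => hne h.symm) (l.val / 2) (by omega) ((l.val + 1) / 2) (by omega) h1 h2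
  omega

theorem sum_parity (c : ℕ) : ∀ d : ℕ, 1 ≤ d →
    ∑ l ∈ Finset.range (2 * d - 1), (if l % 2 = 0 then c else 1) = c * d + d - 1 := by
  intro d hd
  induction d with
  | zero => omega
  | succ d ih =>
    rcases Nat.eq_zero_or_pos d with rfl | hd0
    · simp
    · have e : 2 * (d + 1) - 1 = (2 * d - 1) + 1 + 1 := by omega
      rw [e, Finset.sum_range_succ, Finset.sum_range_succ, ih hd0]
      have h1 : (2 * d - 1) % 2 = 1 := by omega
      have h2 : (2 * d - 1 + 1) % 2 = 0 := by omega
      rw [if_neg (by omega), if_pos h2]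
      have : c * (d + 1) = c * d + c := by ring
      have hcd : 0 ≤ c * d := Nat.zero_le _
      omega

theorem sum_cong_le {c : ℕ} (hd : 1 ≤ d) (x : Fin n → ℕ → Fin M)
    (hx : ∀ j < d, ∀ a, (Finset.univ.filter fun i => x i j = a).card ≤ c)
    (hsh : ∀ i i', i ≠ i' → ∀ j < d, ∀ j' < d, x i j = x i' j → x i j' = x i' j' → j = j')
    (i : Fin n) :
    (((lcoll d Finset.univ x).path i).map (cong (lcoll d Finset.univ x).path)).sum ≤
      c * d + d - 1 := by
  rw [lcoll_path_of_mem (Finset.mem_univ i)]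
  unfold lpath
  rw [List.map_ofFn, List.sum_ofFn, ← sum_parity c d hd, ← Fin.sum_univ_eq_sum_range
    (fun l => if l % 2 = 0 then c else 1)]
  refine Finset.sum_le_sum fun l _ => ?_
  simp only [Function.comp]
  split_ifs with h
  · exact cong_lcoll x hx _
  · exact cong_conn x hsh i l (by omega)

theorem shortcutFree (x : Fin n → ℕ → Fin M)
    (hsh : ∀ i i', i ≠ i' → ∀ j < d, ∀ j' < d, x i j = x i' j → x i j' = x i' j' → j = j') :
    ShortcutFree (lcoll d Finset.univ x) := by
  intro i i' p q p' q' e f e' f' hpq hpq' he hf he' hf' hs ht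
  rw [lcoll_path_of_mem (Finset.mem_univ i)] at he hf ⊢
  rw [lcoll_path_of_mem (Finset.mem_univ i')] at he' hf' ⊢
  have hp : p < 2 * d - 1 := by
    by_contra h
    rw [List.getElem?_eq_none (by rw [lpath_length]; omega)] at he
    exact absurd he (by simp)
  have hq : q < 2 * d - 1 := by
    by_contra h
    rw [List.getElem?_eq_none (by rw [lpath_length]; omega)] at hf
    exact absurd hf (by simp)
  have hp' : p' < 2 * d - 1 := by
    by_contra h
    rw [List.getElem?_eq_none (by rw [lpath_length]; omega)] at he'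
    exact absurd he' (by simp)
  have hq' : q' < 2 * d - 1 := by
    by_contra h
    rw [List.getElem?_eq_none (by rw [lpath_length]; omega)] at hf'
    exact absurd hf' (by simp)
  rw [lpath_get _ _ hp] at he
  rw [lpath_get _ _ hq] at hf
  rw [lpath_get _ _ hp'] at he'
  rw [lpath_get _ _ hq'] at hf'
  obtain rfl := Option.some.inj he
  obtain rfl := Option.some.inj hf
  obtain rfl := Option.some.inj he'
  obtain rfl := Option.some.inj hf'
  have h1 : p = p' := congrArg (fun v : (lnet d M).V => v.1.val) hs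
  have h2 : x i (p / 2) = x i' (p' / 2) := congrArg (fun v : (lnet d M).V => v.2) hs
  have h3 : q + 1 = q' + 1 := congrArg (fun v : (lnet d M).V => v.1.val) ht
  have h4 : x i ((q + 1) / 2) = x i' ((q' + 1) / 2) :=
    congrArg (fun v : (lnet d M).V => v.2) ht
  obtain rfl : q = q' := by omega
  subst h1
  by_cases hii : i = i'
  · subst hii; rfl
  · have h5 := hsh i i' hii _ (by omega) _ (by omega) h2 h4
    have h6 : p = q := by omega
    subst h6
    have e1 : (p + 1) / 2 = p / 2 := by omega
    have hl : ∀ y : ℕ → Fin M, ((lpath d y).take (p + 1)).drop p =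
        [((⟨p, hp⟩, y (p / 2), y ((p + 1) / 2)) : (lnet d M).E)] := by
      intro y
      have hlen : p < (lpath d y).length := by rw [lpath_length]; exact hp
      have hget : (lpath d y)[p] = ((⟨p, hp⟩, y (p / 2), y ((p + 1) / 2)) : (lnet d M).E) := by
        have := lpath_get y p hp
        rw [List.getElem?_eq_getElem hlen] at this
        exact Option.some.inj this
      rw [List.take_succ_eq_append_getElem hlen, List.drop_append_of_le_length (by simp; omega),
        List.drop_eq_nil_of_le (by simp), hget]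
      rfl
    rw [hl, hl, e1, h2]

theorem sources (x : Fin n → ℕ → Fin M) (i : Fin n) (e : (lnet d M).E)
    (he : ((lcoll d Finset.univ x).path i)[0]? = some e) :
    llev d M ((lnet d M).src e) = 0 := by
  rw [lcoll_path_of_mem (Finset.mem_univ i)] at he
  by_cases h : 0 < 2 * d - 1
  · rw [lpath_get _ _ h] at he
    obtain rfl := Option.some.inj he
    rfl
  · rw [List.getElem?_eq_none (by rw [lpath_length]; omega)] at he
    exact absurd he (by simp)

theorem length_path (x : Fin n → ℕ → Fin M) (i : Fin n) :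
    ((lcoll d Finset.univ x).path i).length = 2 * d - 1 := by
  rw [lcoll_path_of_mem (Finset.mem_univ i), lpath_length]

theorem ownCong_le {E : Type} {n c : ℕ} (p : Fin n → List E) (i : Fin n)
    (h : ∀ e, cong p e ≤ c) : ownCong p i ≤ c := by
  unfold ownCong
  rcases Set.eq_empty_or_nonempty {m | ∃ e ∈ p i, m = cong p e} with h0 | h0
  · rw [h0]; simp
  · refine csSup_le h0 ?_
    rintro m ⟨e, -, rfl⟩
    exact h e

theorem needs_of_late {c : ℕ} (hd : 1 ≤ d) (σ : Strat (lnet d M)) (x : Fin n → ℕ → Fin M)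
    (i : Fin n)
    (hi : (run σ (lcoll d Finset.univ x) (d * (c + 1) - 2)).pos i ≤ 2 * d - 2) (t : ℕ)
    (ht : Arrived σ (lcoll d Finset.univ x) t i) : c * d + d - 1 ≤ t := by
  by_contra hlt
  push Not at hlt
  have h1 : (run σ (lcoll d Finset.univ x) t).pos i ≤
      (run σ (lcoll d Finset.univ x) (d * (c + 1) - 2)).pos i := by
    refine pos_mono σ _ i ?_
    have : d * (c + 1) = c * d + d := by ring
    omega
  have h2 : (run σ (lcoll d Finset.univ x) t).pos i = 2 * d - 1 := by
    rw [ht, length_path]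
  omega

end Pool.Agent.Det0225
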