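import Pool.Agent.Lib_MP_0225c1_det.Model

/-!
# MP_0225c1_lc: simulation of the oblivious strategies of the library

For fixed seeds every strategy in the sense of `Pool.Agent.PR0225.Strategy` is simulated by a
deterministic strategy in the sense of `Strat`: the set of the packets which wait at a node can be
decoded from the knowledge of the node.
-/

namespace Pool.Agent.Det0225

open Pool.Agent.PR0225 (Net Coll Info info present hist Crosses)

variable {G : Net} {n : ℕ}

/-- the pairs (name, path) which the node knows at time `0` -/
def names0 {E : Type} (x : View E 0) : Set (ℕ × List E) := x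

/-- the waiting packets (with everything which they carry), decoded from the knowledge `x` of the
node `v` at time `t` -/
def decode (σ : Pool.Agent.PR0225.Strategy) (ω : Fin n → σ.Seed) :
    (t : ℕ) → G.V → View G.E t → Set (Info G.E σ.Seed)
  | 0, v, x => {r | ∃ (i : Fin n) (p : List G.E), ((i : ℕ), p) ∈ names0 x ∧
      r = ⟨i, p, [], ω i⟩ ∧ ∃ e, r.next = some e ∧ G.src e = v}
  | t + 1, v, x =>
      {r | r ∈ decode σ ω t v x.1 ∧
        ¬ ∃ e, r.next = some e ∧ σ.fwd G.E t (decode σ ω t v x.1) e = some r.id} ∪
      {r | ∃ (e : G.E) (y : View G.E t) (r' : Info G.E σ.Seed),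
        (r'.id, e, y) ∈ x.2 ∧ r' ∈ decode σ ω t (G.src e) y ∧ r'.next = some e ∧
        r = ⟨r'.id, r'.path, r'.hist ++ [t], r'.seed⟩ ∧ ∃ e', r.next = some e' ∧ G.src e' = v}

/-- the simulating strategy -/
def sim (G : Net) (σ : Pool.Agent.PR0225.Strategy) (ω : Fin n → σ.Seed) : Strat G :=
  fun t e x => σ.fwd G.E t (decode σ ω t (G.src e) x) e

/-- consecutive edges of a path -/
theorem tgt_eq_src (C : Coll G n) (i : Fin n) (k : ℕ) (e f : G.E)
    (he : (C.path i)[k]? = some e) (hf : (C.path i)[k + 1]? = some f) : G.tgt e = G.src f := by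
  obtain ⟨h1, h2⟩ := List.getElem?_eq_some_iff.1 he
  obtain ⟨h3, h4⟩ := List.getElem?_eq_some_iff.1 hf
  have := List.isChain_iff_getElem.1 (C.chain i) k h3
  rw [← h2, ← h4]
  exact this

theorem sim_inv (σ : Pool.Agent.PR0225.Strategy) (ω : Fin n → σ.Seed) (C : Coll G n) (t : ℕ) :
    (∀ i, (run (sim G σ ω) C t).pos i = (hist C σ ω t i).length) ∧
    ∀ v, decode σ ω t v ((run (sim G σ ω) C t).view v) = present C ω (hist C σ ω t) v := by
  induction t with
  | zero =>
    refine ⟨fun i => by simp [run, hist], fun v => ?_⟩
    ext r
    constructor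
    · rintro ⟨i, p, hp, rfl, e, he, hev⟩
      obtain ⟨i', hi', -⟩ := hp
      rw [Prod.mk.injEq] at hi'
      obtain ⟨h1, h2⟩ := hi'
      have h1' : i = i' := Fin.ext h1
      subst h1'
      subst h2
      exact ⟨i, rfl, e, he, hev⟩
    · rintro ⟨i, rfl, e, he, hev⟩
      refine ⟨i, C.path i, ⟨i, rfl, e, ?_, Or.inl hev⟩, rfl, e, he, hev⟩
      exact List.mem_of_getElem? he
  | succ t ih =>
    obtain ⟨ih1, ih2⟩ := ih
    -- crossing is the same in both models
    have hcr : ∀ i e, Cross (sim G σ ω) C t (run (sim G σ ω) C t) i e ↔
        Crosses C σ ω (hist C σ ω t) t i e := by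
      intro i e
      unfold Cross Crosses
      rw [ih1 i]
      have : sim G σ ω t e ((run (sim G σ ω) C t).view (G.src e)) =
          σ.fwd G.E t (present C ω (hist C σ ω t) (G.src e)) e := by
        show σ.fwd G.E t (decode σ ω t (G.src e) ((run (sim G σ ω) C t).view (G.src e))) e = _
        rw [ih2]
      rw [this]
      exact Iff.rfl
    have hcr' : ∀ i, (∃ e, Cross (sim G σ ω) C t (run (sim G σ ω) C t) i e) ↔
        ∃ e, Crosses C σ ω (hist C σ ω t) t i e := fun i => exists_congr (hcr i)
    have hist_yes : ∀ i, (∃ e, Crosses C σ ω (hist C σ ω t) t i e) →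
        hist C σ ω (t + 1) i = hist C σ ω t i ++ [t] := by
      intro i h
      simp only [hist]
      rw [if_pos h]
    have hist_no : ∀ i, (¬ ∃ e, Crosses C σ ω (hist C σ ω t) t i e) →
        hist C σ ω (t + 1) i = hist C σ ω t i := by
      intro i h
      simp only [hist]
      rw [if_neg h]
    refine ⟨fun i => ?_, fun v => ?_⟩
    · by_cases h : ∃ e, Crosses C σ ω (hist C σ ω t) t i e
      · obtain ⟨e, he⟩ := (hcr' i).2 h
        rw [pos_succ_of_cross _ C he, hist_yes i h, ih1 i, List.length_append,
          List.length_singleton]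
      · rw [pos_succ_of_not _ C (fun h' => h ((hcr' i).1 h')), hist_no i h, ih1 i]
    · have hview : (run (sim G σ ω) C (t + 1)).view v =
          ((run (sim G σ ω) C t).view v, news (sim G σ ω) C t (run (sim G σ ω) C t) v) := rfl
      rw [hview]
      ext r
      constructor
      · rintro (⟨hr, hno⟩ | ⟨e, y, r', hnews, hr', hnext, rfl, e', he', hev'⟩)
        · -- a packet which stays
          simp only [ih2 v] at hr hno
          obtain ⟨i, rfl, e, he, hev⟩ := hr
          have hnc : ¬ ∃ e, Crosses C σ ω (hist C σ ω t) t i e := by
            rintro ⟨f, hf1, hf2⟩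
            have hfe : f = e := by
              have : some f = some e := hf1.symm.trans he
              exact Option.some.inj this
            subst hfe
            apply hno
            rw [hev] at hf2
            exact ⟨f, he, hf2⟩
          refine ⟨i, ?_, e, he, hev⟩
          unfold info
          rw [hist_no i hnc]
        · -- a packet which arrives
          obtain ⟨i, f, hcross, htgt, heq⟩ := hnews
          simp only [Prod.mk.injEq] at heq
          obtain ⟨hid, hef, hy⟩ := heq
          subst hef
          subst hy
          rw [ih2] at hr'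
          obtain ⟨i', rfl, -⟩ := hr'
          have hii : i' = i := Fin.ext hid
          subst hii
          have hc : ∃ e, Crosses C σ ω (hist C σ ω t) t i' e := ⟨e, (hcr i' e).1 hcross⟩
          refine ⟨i', ?_, e', he', hev'⟩
          unfold info
          rw [hist_yes i' hc]
      · rintro ⟨i, rfl, e', he', hev'⟩
        by_cases hc : ∃ e, Crosses C σ ω (hist C σ ω t) t i e
        · right
          obtain ⟨e, hce⟩ := hc
          have hh := hist_yes i ⟨e, hce⟩
          have hnext : (info C ω (hist C σ ω t) i).next = some e := hce.1
          have htv : G.tgt e = v := by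
            rw [← hev']
            refine tgt_eq_src C i (hist C σ ω t i).length e e' hnext ?_
            have h3 : (C.path i)[(hist C σ ω (t + 1) i).length]? = some e' := he'
            rw [hh, List.length_append, List.length_singleton] at h3
            exact h3
          refine ⟨e, (run (sim G σ ω) C t).view (G.src e), info C ω (hist C σ ω t) i, ?_, ?_,
            hnext, ?_, e', he', hev'⟩
          · exact ⟨i, e, (hcr i e).2 hce, htv, rfl⟩
          · rw [ih2]
            exact ⟨i, rfl, e, hnext, rfl⟩
          · unfold info
            rw [hh]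
        · left
          have hh := hist_no i hc
          have hinfo : info C ω (hist C σ ω (t + 1)) i = info C ω (hist C σ ω t) i := by
            unfold info
            rw [hh]
          rw [hinfo] at he' ⊢
          refine ⟨?_, ?_⟩
          · rw [ih2]
            exact ⟨i, rfl, e', he', hev'⟩
          · rintro ⟨e, he, hfwd⟩
            have hee : e = e' := Option.some.inj (he.symm.trans he')
            subst hee
            apply hc
            refine ⟨e, he, ?_⟩
            simp only [ih2 v] at hfwd
            rw [hev']
            exact hfwd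

/-- **Simulation.** -/
theorem exists_sim {G : Net} {n : ℕ} (σ : Pool.Agent.PR0225.Strategy) (ω : Fin n → σ.Seed) :
    ∃ τ : Strat G, ∀ (C : Coll G n) (t : ℕ) (i : Fin n),
      (run τ C t).pos i = (Pool.Agent.PR0225.hist C σ ω t i).length :=
  ⟨sim G σ ω, fun C t i => (sim_inv σ ω C t).1 i⟩

end Pool.Agent.Det0225
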