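import Pool.Agent.Lib_MP_0225c1_det.Few
import Pool.Agent.Lib_MP_0225c1_det.Sim
import Pool.Agent.Lib_MP_0225c1.Main

/-!
# MP_0225c1_lc: few random bits suffice for `K (C + (log n) ^ γ)`
-/

open MeasureTheory Filter

namespace Pool.Agent.Det0225

open Pool.Agent.PR0225 (Net Coll cong upCong Fol)

theorem upCong_le {E : Type} {n c : ℕ} (p : Fin n → List E) (i : Fin n)
    (h : ∀ e, cong p e ≤ c) : upCong p i ≤ c := by
  unfold upCong
  rcases Set.eq_empty_or_nonempty
    {m | ∃ e f, f ∈ p i ∧ Relation.ReflTransGen (Fol p) e f ∧ m = cong p e} with h0 | h0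
  · rw [h0]; simp
  · refine csSup_le h0 ?_
    rintro m ⟨e, f, -, -, rfl⟩
    exact h e

theorem arith_up (γ : ℝ) (hγ : 1 < γ) : ∃ B : ℝ, 0 < B ∧ ∀ c d L : ℝ, 0 ≤ c → 0 ≤ d → d ≤ L →
    1 ≤ L → c + Real.log (2 + c + d + L) ^ 3 * d + Real.log (2 + c + d + L) ^ 2 * L ≤
      B * (c + L ^ γ) := by
  set η : ℝ := (γ - 1) / γ with hη
  have hγ0 : 0 < γ := by linarith
  have hη0 : 0 < η := div_pos (by linarith) hγ0
  have hη1 : η ≤ 1 := by rw [hη, div_le_one hγ0]; linarith
  have hηγ : η + 1 / γ = 1 := by rw [hη]; field_simp; ring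
  refine ⟨1 + 4 * (3 / η) ^ 3 + 4 * (3 / η) ^ 2, by positivity, fun c d L hc hd hdL hL => ?_⟩
  set u := 2 + c + d + L with hu
  have hu1 : 1 ≤ u := by linarith
  have hl0 : 0 ≤ Real.log u := Real.log_nonneg hu1
  have hlog : Real.log u ≤ u ^ (η / 3) / (η / 3) := Real.log_le_rpow_div (by linarith) (by positivity)
  have hlog' : Real.log u ≤ 3 / η * u ^ (η / 3) := by
    calc Real.log u ≤ u ^ (η / 3) / (η / 3) := hlog
      _ = 3 / η * u ^ (η / 3) := by field_simp
  have hup : 0 ≤ u ^ (η / 3) := Real.rpow_nonneg (by linarith) _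
  have h3 : Real.log u ^ 3 ≤ (3 / η) ^ 3 * u ^ η := by
    calc Real.log u ^ 3 ≤ (3 / η * u ^ (η / 3)) ^ 3 := by gcongr
      _ = (3 / η) ^ 3 * u ^ η := by
          rw [mul_pow, ← Real.rpow_natCast (u ^ (η / 3)) 3, ← Real.rpow_mul (by linarith)]
          congr 2
          push_cast
          ring
  have h2 : Real.log u ^ 2 ≤ (3 / η) ^ 2 * u ^ η := by
    calc Real.log u ^ 2 ≤ (3 / η * u ^ (η / 3)) ^ 2 := by gcongr
      _ = (3 / η) ^ 2 * u ^ (2 * η / 3) := by
          rw [mul_pow, ← Real.rpow_natCast (u ^ (η / 3)) 2, ← Real.rpow_mul (by linarith)]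
          congr 2
          push_cast
          ring
      _ ≤ (3 / η) ^ 2 * u ^ η := by
          gcongr
          linarith
  set w := c + L ^ γ with hw
  have hLγ : L ≤ L ^ γ := by
    calc L = L ^ (1 : ℝ) := (Real.rpow_one L).symm
      _ ≤ L ^ γ := Real.rpow_le_rpow_of_exponent_le hL hγ.le
  have hw1 : 1 ≤ w := by linarith
  have huw : u ≤ 4 * w := by linarith
  have hu4 : u ^ η ≤ 4 * w ^ η := by
    calc u ^ η ≤ (4 * w) ^ η := by gcongr
      _ = 4 ^ η * w ^ η := Real.mul_rpow (by norm_num) (by linarith)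
      _ ≤ 4 ^ (1 : ℝ) * w ^ η := by
          gcongr
          · norm_num
      _ = 4 * w ^ η := by rw [Real.rpow_one]
  have hLw : L ≤ w ^ (1 / γ) := by
    calc L = (L ^ γ) ^ (1 / γ) := by
          rw [← Real.rpow_mul (by linarith), mul_one_div_cancel hγ0.ne', Real.rpow_one]
      _ ≤ w ^ (1 / γ) := by
          have : L ^ γ ≤ w := by linarith
          have : 0 ≤ L ^ γ := by linarith
          gcongr
  have hprod : u ^ η * L ≤ 4 * w := by
    calc u ^ η * L ≤ (4 * w ^ η) * w ^ (1 / γ) := by gcongr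
      _ = 4 * w ^ (η + 1 / γ) := by
          rw [Real.rpow_add (by linarith)]; ring
      _ = 4 * w := by rw [hηγ, Real.rpow_one]
  have hη3 : 0 ≤ (3 / η) ^ 3 := by positivity
  have hη2 : 0 ≤ (3 / η) ^ 2 := by positivity
  have e3 : Real.log u ^ 3 * d ≤ 4 * (3 / η) ^ 3 * w := by
    calc Real.log u ^ 3 * d ≤ ((3 / η) ^ 3 * u ^ η) * L := by gcongr
      _ = (3 / η) ^ 3 * (u ^ η * L) := by ring
      _ ≤ (3 / η) ^ 3 * (4 * w) := by gcongr
      _ = 4 * (3 / η) ^ 3 * w := by ring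
  have e2 : Real.log u ^ 2 * L ≤ 4 * (3 / η) ^ 2 * w := by
    calc Real.log u ^ 2 * L ≤ ((3 / η) ^ 2 * u ^ η) * L := by gcongr
      _ = (3 / η) ^ 2 * (u ^ η * L) := by ring
      _ ≤ (3 / η) ^ 2 * (4 * w) := by gcongr
      _ = 4 * (3 / η) ^ 2 * w := by ring
  have e1 : c ≤ w := by
    have : 0 ≤ L ^ γ := by linarith
    linarith
  calc c + Real.log u ^ 3 * d + Real.log u ^ 2 * L
      ≤ w + 4 * (3 / η) ^ 3 * w + 4 * (3 / η) ^ 2 * w := by linarith
    _ = (1 + 4 * (3 / η) ^ 3 + 4 * (3 / η) ^ 2) * w := by ring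

/-- the congestion of a collection -/
noncomputable def maxCong {G : Net} {n : ℕ} (C : Coll G n) : ℕ := sSup (Set.range (cong C.path))

theorem cong_le_maxCong {G : Net} {n : ℕ} (C : Coll G n) (e : G.E) :
    cong C.path e ≤ maxCong C := by
  classical
  refine le_csSup ⟨n, ?_⟩ ⟨e, rfl⟩
  rintro _ ⟨e, rfl⟩
  unfold cong
  refine le_trans (Finset.card_filter_le _ _) ?_
  simp

theorem maxCong_le {G : Net} {n c : ℕ} (C : Coll G n) (h : ∀ e, cong C.path e ≤ c) :
    maxCong C ≤ c := by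
  unfold maxCong
  rcases Set.eq_empty_or_nonempty (Set.range (cong C.path)) with h0 | h0
  · rw [h0]; simp
  · refine csSup_le h0 ?_
    rintro _ ⟨e, rfl⟩
    exact h e

/-- **Few random bits suffice.** -/
theorem upper (α γ : ℝ) (hα : 0 ≤ α) (hγ : 1 < γ) : ∃ (K : ℝ) (n₀ : ℕ), ∀ n ≥ n₀,
    ∀ (G : Net) (_ : Finite G.E), (Nat.card G.E : ℝ) ≤ (n : ℝ) ^ 10 →
      ∃ (m : ℕ) (τ : Fin m → Strat G), 0 < m ∧ (m : ℝ) ≤ (n : ℝ) ^ (1 + α) * Real.log n ^ 2 ∧
        ∀ (C : Coll G n) (c : ℕ), (∀ e, cong C.path e ≤ c) →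
          (∀ i, ((C.path i).length : ℝ) ≤ Real.log n) →
          ({s | Slow (τ s) C fun _ => K * (c + Real.log n ^ γ)}.ncard : ℝ) <
            (n : ℝ) ^ (-α) * m := by
  obtain ⟨σ, hσ⟩ := Pool.Agent.PR0225.main
  obtain ⟨A, hA⟩ := hσ (α + 1) (by linarith)
  obtain ⟨B, hB0, hB⟩ := arith_up γ hγ
  obtain ⟨n₁, hn₁⟩ := few_outcomes α (α + 1) hα (by linarith)
  have hev : ∀ᶠ n : ℕ in atTop, 1 ≤ Real.log n :=
    (Real.tendsto_log_atTop.comp (tendsto_natCast_atTop_atTop (R := ℝ))).eventually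
      (eventually_ge_atTop 1)
  obtain ⟨n₂, hn₂⟩ := eventually_atTop.1 hev
  refine ⟨|A| * B, max n₁ n₂, fun n hn G hG hE => ?_⟩
  have hL := hn₂ n (le_trans (le_max_right _ _) hn)
  choose τ hτ using fun ω : Fin n → σ.Seed => exists_sim (G := G) σ ω
  let hms : MeasurableSpace (Fin n → σ.Seed) := @MeasurableSpace.pi _ _ (fun _ => σ.mS)
  let P : Measure (Fin n → σ.Seed) :=
    @Measure.pi (Fin n) (fun _ => σ.Seed) _ (fun _ => σ.mS) (fun _ => σ.law)
  have hP : IsProbabilityMeasure P := by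
    have := fun _ : Fin n => σ.prob
    exact @Measure.pi.instIsProbabilityMeasure (Fin n) (fun _ => σ.Seed) _ (fun _ => σ.mS)
      (fun _ => σ.law) this
  have hfail : ∀ C : Coll G n, (∀ i, ((C.path i).length : ℝ) ≤ Real.log n) →
      P.real {ω | Slow (τ ω) C ((fun C _ => |A| * B * (maxCong C + Real.log n ^ γ) :
        Coll G n → Fin n → ℝ) C)} ≤ (n : ℝ) ^ (-(α + 1)) := by
    intro C hC
    refine ENNReal.toReal_le_of_le_ofReal (Real.rpow_nonneg (Nat.cast_nonneg _) _)
      (le_trans (measure_mono ?_) (hA G n C))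
    intro ω hω
    rintro hall
    obtain ⟨i, hi⟩ := hω
    obtain ⟨t, ht1, ht2⟩ := hall i
    have ht3 : Arrived (τ ω) C t i := by
      unfold Arrived
      rw [hτ ω C t i]
      exact ht2
    have h1 := hi t ht3
    have h2 : ((upCong C.path i : ℕ) : ℝ) ≤ maxCong C := by
      exact_mod_cast upCong_le C.path i (cong_le_maxCong C)
    have h3 := hB (upCong C.path i) (C.path i).length (Real.log n) (Nat.cast_nonneg _)
      (Nat.cast_nonneg _) (hC i) hL
    have hLγ : 0 ≤ Real.log n ^ γ := Real.rpow_nonneg (by linarith) _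
    have h4 : (t : ℝ) ≤ |A| * B * (maxCong C + Real.log n ^ γ) := by
      have hlog : 0 ≤ Real.log (2 + (upCong C.path i : ℝ) + ((C.path i).length : ℝ) +
          Real.log n) := Real.log_nonneg (by
            have h5 : (0 : ℝ) ≤ (upCong C.path i : ℝ) := Nat.cast_nonneg _
            have h6 : (0 : ℝ) ≤ ((C.path i).length : ℝ) := Nat.cast_nonneg _
            linarith)
      calc (t : ℝ) ≤ A * (upCong C.path i +
            Real.log (2 + upCong C.path i + (C.path i).length + Real.log n) ^ 3 *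
              (C.path i).length +
            Real.log (2 + upCong C.path i + (C.path i).length + Real.log n) ^ 2 *
              Real.log n) := ht1
        _ ≤ |A| * (upCong C.path i +
            Real.log (2 + upCong C.path i + (C.path i).length + Real.log n) ^ 3 *
              (C.path i).length +
            Real.log (2 + upCong C.path i + (C.path i).length + Real.log n) ^ 2 *
              Real.log n) := by
            refine mul_le_mul_of_nonneg_right (le_abs_self A) ?_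
            have := hL
            positivity
        _ ≤ |A| * (B * (upCong C.path i + Real.log n ^ γ)) := by gcongr
        _ ≤ |A| * (B * (maxCong C + Real.log n ^ γ)) := by gcongr
        _ = |A| * B * (maxCong C + Real.log n ^ γ) := by ring
    exact absurd h1 (not_lt.2 h4)
  obtain ⟨m, ρ, hm0, hm, hρ⟩ := hn₁ n (le_trans (le_max_left _ _) hn) G hG hE
    (fun C _ => |A| * B * (maxCong C + Real.log n ^ γ)) (Fin n → σ.Seed) hms P hP τ hfail
  refine ⟨m, ρ, hm0, hm, fun C c hc hlen => lt_of_le_of_lt ?_ (hρ C hlen)⟩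
  have hsub : {s | Slow (ρ s) C fun _ => |A| * B * (c + Real.log n ^ γ)} ⊆
      {s | Slow (ρ s) C fun _ => |A| * B * (maxCong C + Real.log n ^ γ)} := by
    rintro s ⟨i, hi⟩
    refine ⟨i, fun t ht => lt_of_le_of_lt ?_ (hi t ht)⟩
    have h1 : ((maxCong C : ℕ) : ℝ) ≤ c := by exact_mod_cast maxCong_le C hc
    beta_reduce
    gcongr
  exact_mod_cast Set.ncard_le_ncard hsub (Set.toFinite _)

end Pool.Agent.Det0225
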